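import Pool.Agent.H525R3.Ground

/-!
# The names given by the nodes of a well-founded graph
-/

set_option autoImplicit false
set_option linter.all false

namespace Pool.Agent.T6.H70.SA

open FirstOrder FirstOrder.Language
open Pool.Agent.Helper672 Pool.Agent.Helper672.ZFA Pool.Agent.Helper672.ZFA.H635
open Pool.Agent.Helper672.Plain (LSet)
open Pool.Agent.H525C (Gr chk chk_eq chk_inj mem_chk mem_chk_chk isPair_chk isOrdPair_chk tc
  trans_tc mem_tc)

universe u

set_option synthInstance.maxSize 2000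

section

variable {M : Type u} [L.Structure M] [hM : IsModel M]

/-- Attempts: partial functions that satisfy the recursion. -/
def Att (e g : M) : Prop := ∀ a z, Mem (op a z) g →
  (∀ b p, Mem (op (op b p) a) e → ∃ x, Mem (op b x) g) ∧
  (∀ w, Mem w z ↔ ∃ b p x, Mem (op (op b p) a) e ∧ Mem (op b x) g ∧ w = op x p)

/-- The value at `a` is `z`. -/
def Va (e a z : M) : Prop := ∃ g, Att e g ∧ Mem (op a z) g

theorem D.va {ι : Type} {f g : (ι → M) → M} (e : M) (hf : DF f) (hg : DF g) :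
    D (fun v => Va e (f v) (g v)) := by
  have h0 : D (fun v : Fin 2 → M => Va e (v 0) (v 1)) := by
    unfold Va Att
    (repeat' (first | with_reducible exact DF.var _ | with_reducible exact DF.const _ | assumption | with_reducible apply D.and | with_reducible apply D.or | with_reducible apply D.not | with_reducible apply D.imp | with_reducible apply D.iff | with_reducible apply D.eqf | with_reducible apply D.memf | with_reducible apply D.all | with_reducible apply D.ex | with_reducible apply DF.op | with_reducible apply DF.up))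
  exact D.subst (f := ![f, g]) h0 (by
    intro k
    fin_cases k <;> assumption)

variable {P : Type u} [ITy M P]
variable {α : Type u} [ITy M α] {E : α → P → α → Prop}

/-- The graph as an element of the model. -/
noncomputable def eg (hE : IG M E) : M := gr hE

theorem mem_eg (hE : IG M E) {b p a : M} : Mem (op (op b p) a) (eg hE) ↔
    ∃ b' p' a', E b' p' a' ∧ code b' = b ∧ code p' = p ∧ code a' = a := by
  refine (mem_gr (show Int M (fun q : (α × P) × α => E q.1.1 q.1.2 q.2) from hE)).trans ?_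
  constructor
  · rintro ⟨⟨⟨b', p'⟩, a'⟩, h1, h2⟩
    obtain ⟨h3, h4⟩ := op_inj (h2 : op (op (code b') (code p')) (code a') = op (op b p) a)
    obtain ⟨h5, h6⟩ := op_inj h3
    exact ⟨b', p', a', h1, h5, h6, h4⟩
  · rintro ⟨b', p', a', h1, rfl, rfl, rfl⟩
    exact ⟨((b', p'), a'), h1, rfl⟩

theorem mem_eg' (hE : IG M E) {b p : M} {a : α} : Mem (op (op b p) (code a)) (eg hE) ↔
    ∃ b' p', E b' p' a ∧ code b' = b ∧ code p' = p := by
  rw [mem_eg]
  constructor
  · rintro ⟨b', p', a', h1, h2, h3, h4⟩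
    obtain rfl := ITy.inj h4
    exact ⟨b', p', h1, h2, h3⟩
  · rintro ⟨b', p', h1, h2, h3⟩
    exact ⟨b', p', a, h1, h2, h3, rfl⟩

theorem va_unique (hS : ∀ x : M, IsSet x) (hE : IG M E) (hW : WFI M E) (a : α) {z z' : M}
    (h : Va (eg hE) (code a) z) (h' : Va (eg hE) (code a) z') : z = z' := by
  by_contra hne
  have hp : Int M (fun a : α => ∃ z z', Va (eg hE) (code a) z ∧ Va (eg hE) (code a) z' ∧
      ¬ z = z') := by
    refine Int.of_D (S := fun v => ∃ z z', Va (eg hE) (v 0) z ∧ Va (eg hE) (v 0) z' ∧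
      ¬ z = z') ?_ fun a => Iff.rfl
    exact D.ex (D.ex (D.and (D.va _ (DF.var _) (DF.var _)) (D.and (D.va _ (DF.var _) (DF.var _))
      (D.not (D.eqf (DF.var _) (DF.var _))))))
  obtain ⟨a, h1, h2⟩ := hW (sep M fun a => ∃ z z', Va (eg hE) (code a) z ∧
    Va (eg hE) (code a) z' ∧ ¬ z = z') ⟨a, (mem_sep hp).2 ⟨z, z', h, h', hne⟩⟩
  obtain ⟨z, z', ⟨g, hg, hag⟩, ⟨g', hg', hag'⟩, hzz⟩ := (mem_sep hp).1 h1
  have hmin : ∀ b p, E b p a → ∀ x x', Va (eg hE) (code b) x → Va (eg hE) (code b) x' →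
      x = x' := by
    intro b p hb x x' hx hx'
    by_contra hxx
    exact h2 b p ((mem_sep hp).2 ⟨x, x', hx, hx', hxx⟩) hb
  have key : ∀ {g g' z z' : M}, Att (eg hE) g → Att (eg hE) g' → Mem (op (code a) z) g →
      Mem (op (code a) z') g' → ∀ w, Mem w z → Mem w z' := by
    intro g g' z z' hg hg' hz hz' w hw
    obtain ⟨b, p, x, h3, h4, h5⟩ := ((hg _ _ hz).2 w).1 hw
    obtain ⟨x', h6⟩ := (hg' _ _ hz').1 b p h3
    refine ((hg' _ _ hz').2 w).2 ⟨b, p, x', h3, h6, ?_⟩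
    obtain ⟨b', p', h7, rfl, rfl⟩ := (mem_eg' hE).1 h3
    rw [hmin b' p' h7 x x' ⟨g, hg, h4⟩ ⟨g', hg', h6⟩] at h5
    exact h5
  exact hzz (ext_of_isSet hS fun w => ⟨key hg hg' hag hag' w, key hg' hg hag' hag w⟩)

/-- The table of all values. -/
theorem exists_table (hS : ∀ x : M, IsSet x) (hR : ReplL M) (hE : IG M E) (hW : WFI M E) :
    ∃ g : M, ∀ y, Mem y g ↔ ∃ (a : α) (z : M), Va (eg hE) (code a) z ∧ y = op (code a) z := by
  have hp : Int M (fun a : α => ∃ z, Va (eg hE) (code a) z) := by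
    refine Int.of_D (S := fun v => ∃ z, Va (eg hE) (v 0) z) ?_ fun a => Iff.rfl
    exact D.ex (D.va _ (DF.var _) (DF.var _))
  obtain ⟨g, hg⟩ := hR (fun x y => ∃ z, Va (eg hE) x z ∧ y = op x z)
    (D.ex (D.and (D.va _ (DF.var _) (DF.var _)) (D.eqf (DF.var _) (DF.op (DF.var _) (DF.var _)))))
    (gr hp) (by
      intro x hx
      obtain ⟨a, ⟨z, hz⟩, rfl⟩ := (mem_gr hp).1 hx
      refine ⟨op (code a) z, ⟨z, hz, rfl⟩, ?_⟩
      rintro y ⟨z', hz', rfl⟩
      rw [va_unique hS hE hW a hz hz'])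
  refine ⟨g, fun y => (hg y).trans ?_⟩
  constructor
  · rintro ⟨x, hx, z, hz, rfl⟩
    obtain ⟨a, -, rfl⟩ := (mem_gr hp).1 hx
    exact ⟨a, z, hz, rfl⟩
  · rintro ⟨a, z, hz, rfl⟩
    exact ⟨code a, (mem_gr hp).2 ⟨a, ⟨z, hz⟩, rfl⟩, z, hz, rfl⟩

theorem va_exists (hS : ∀ x : M, IsSet x) (hR : ReplL M) (hE : IG M E) (hW : WFI M E) (a : α) :
    ∃ z, Va (eg hE) (code a) z := by
  by_contra hno
  have hp : Int M (fun a : α => ¬ ∃ z, Va (eg hE) (code a) z) := by
    refine Int.of_D (S := fun v => ¬ ∃ z, Va (eg hE) (v 0) z) ?_ fun a => Iff.rfl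
    exact D.not (D.ex (D.va _ (DF.var _) (DF.var _)))
  obtain ⟨a, h1, h2⟩ := hW (sep M fun a => ¬ ∃ z, Va (eg hE) (code a) z)
    ⟨a, (mem_sep hp).2 hno⟩
  have hna : ¬ ∃ z, Va (eg hE) (code a) z := (mem_sep hp).1 h1
  have hmin : ∀ b p, E b p a → ∃ x, Va (eg hE) (code b) x := by
    intro b p hb
    by_contra hx
    exact h2 b p ((mem_sep hp).2 hx) hb
  obtain ⟨g, hg⟩ := exists_table hS hR hE hW
  have hgm : ∀ (b : α) (x : M), Mem (op (code b) x) g ↔ Va (eg hE) (code b) x := by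
    intro b x
    rw [hg]
    constructor
    · rintro ⟨b', z, h3, h4⟩
      obtain ⟨h5, rfl⟩ := op_inj h4
      obtain rfl := ITy.inj h5
      exact h3
    · exact fun h3 => ⟨b, x, h3, rfl⟩
  -- the value at `a`
  have hch : Int M (fun q : α × P => E q.1 q.2 a) :=
    Int.comp (p := fun q : (α × P) × α => E q.1.1 q.1.2 q.2) hE (f := fun q : α × P => (q, a))
      (IntF.pair IntF.id (IntF.const a))
  obtain ⟨z, hz⟩ := hR (fun q y => ∃ b p x, q = op b p ∧ Va (eg hE) b x ∧ y = op x p)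
    (D.ex (D.ex (D.ex (D.and (D.eqf (DF.var _) (DF.op (DF.var _) (DF.var _)))
      (D.and (D.va _ (DF.var _) (DF.var _)) (D.eqf (DF.var _) (DF.op (DF.var _) (DF.var _))))))))
    (gr hch) (by
      intro q hq
      obtain ⟨⟨b, p⟩, hb, rfl⟩ := (mem_gr hch).1 hq
      obtain ⟨x, hx⟩ := hmin b p hb
      refine ⟨op x (code p), ⟨code b, code p, x, rfl, hx, rfl⟩, ?_⟩
      rintro y ⟨b', p', x', h3, h4, rfl⟩
      obtain ⟨rfl, rfl⟩ := op_inj (h3 : op (code b) (code p) = op b' p')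
      rw [va_unique hS hE hW b hx h4])
  have hz' : ∀ w, Mem w z ↔ ∃ (b : α) (p : P) (x : M), E b p a ∧ Va (eg hE) (code b) x ∧
      w = op x (code p) := by
    intro w
    rw [hz]
    constructor
    · rintro ⟨q, hq, b', p', x, h3, h4, h5⟩
      obtain ⟨⟨b, p⟩, hb, rfl⟩ := (mem_gr hch).1 hq
      obtain ⟨rfl, rfl⟩ := op_inj (h3 : op (code b) (code p) = op b' p')
      exact ⟨b, p, x, hb, h4, h5⟩
    · rintro ⟨b, p, x, hb, h3, h4⟩
      exact ⟨op (code b) (code p), (mem_gr hch).2 ⟨(b, p), hb, rfl⟩, code b, code p, x, rfl,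
        h3, h4⟩
  -- the new attempt
  have hsm := small_union g (up (op (code a) z) (op (code a) z))
  have hg' : ∀ y, Mem y hsm.elt ↔ Mem y g ∨ y = op (code a) z := by
    intro y
    rw [hsm.mem]
    change Mem y g ∨ Mem y (up (op (code a) z) (op (code a) z)) ↔ _
    rw [mem_up, or_self]
  have hatt : Att (eg hE) hsm.elt := by
    intro c y hcy
    rcases (hg' _).1 hcy with h3 | h3
    · obtain ⟨c', y', ⟨g1, hg1, hcg⟩, h5⟩ := (hg _).1 h3
      obtain ⟨rfl, rfl⟩ := op_inj h5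
      obtain ⟨h6, h7⟩ := hg1 _ _ hcg
      refine ⟨fun b p hb => ?_, fun w => ?_⟩
      · obtain ⟨x, hx⟩ := h6 b p hb
        obtain ⟨b', p', h8, rfl, rfl⟩ := (mem_eg' hE).1 hb
        exact ⟨x, (hg' _).2 (Or.inl ((hgm _ _).2 ⟨g1, hg1, hx⟩))⟩
      · rw [h7]
        constructor
        · rintro ⟨b, p, x, hb, hx, hw⟩
          obtain ⟨b', p', h8, rfl, rfl⟩ := (mem_eg' hE).1 hb
          exact ⟨_, _, x, hb, (hg' _).2 (Or.inl ((hgm _ _).2 ⟨g1, hg1, hx⟩)), hw⟩
        · rintro ⟨b, p, x, hb, hx, hw⟩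
          obtain ⟨x', hx'⟩ := h6 b p hb
          obtain ⟨b', p', h8, rfl, rfl⟩ := (mem_eg' hE).1 hb
          rcases (hg' _).1 hx with h9 | h9
          · rw [hgm] at h9
            rw [va_unique hS hE hW b' h9 ⟨g1, hg1, hx'⟩] at hw
            exact ⟨_, _, x', hb, hx', hw⟩
          · obtain ⟨h10, -⟩ := op_inj h9
            exact absurd ⟨x', g1, hg1, h10 ▸ hx'⟩ hna
    · obtain ⟨rfl, rfl⟩ := op_inj h3
      refine ⟨fun b p hb => ?_, fun w => ?_⟩
      · obtain ⟨b', p', h8, rfl, rfl⟩ := (mem_eg' hE).1 hb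
        obtain ⟨x, hx⟩ := hmin b' p' h8
        exact ⟨x, (hg' _).2 (Or.inl ((hgm _ _).2 hx))⟩
      · rw [hz']
        constructor
        · rintro ⟨b, p, x, hb, hx, hw⟩
          exact ⟨code b, code p, x, (mem_eg' hE).2 ⟨b, p, hb, rfl, rfl⟩,
            (hg' _).2 (Or.inl ((hgm _ _).2 hx)), hw⟩
        · rintro ⟨b, p, x, hb, hx, hw⟩
          obtain ⟨b', p', h8, rfl, rfl⟩ := (mem_eg' hE).1 hb
          rcases (hg' _).1 hx with h9 | h9
          · rw [hgm] at h9
            exact ⟨b', p', x, h8, h9, hw⟩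
          · obtain ⟨h10, -⟩ := op_inj h9
            obtain ⟨x', hx'⟩ := hmin b' p' h8
            exact absurd ⟨x', h10 ▸ hx'⟩ hna
  exact hna ⟨z, hsm.elt, hatt, (hg' _).2 (Or.inr rfl)⟩

/-- **The names of the nodes of a graph.** -/
theorem exists_names (hg : Gr M) (hE : IG M E) (hW : WFI M E) :
    ∃ (t : M) (τ : α → El t), Trans t ∧ IntF M τ ∧
      ∀ a w, Mem w (τ a).1 ↔ ∃ b p, E b p a ∧ w = op (τ b).1 (code p) := by
  obtain ⟨g, hgt⟩ := exists_table hg.set hg.repl hE hW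
  choose τ hτ using va_exists hg.set hg.repl hE hW
  have hgm : ∀ (b : α) (x : M), Mem (op (code b) x) g ↔ x = τ b := by
    intro b x
    rw [hgt]
    constructor
    · rintro ⟨b', z, h3, h4⟩
      obtain ⟨h5, rfl⟩ := op_inj h4
      obtain rfl := ITy.inj h5
      exact va_unique hg.set hE hW b h3 (hτ b)
    · rintro rfl
      exact ⟨b, τ b, hτ b, rfl⟩
  have hmt : ∀ a, Mem (τ a) (tc hg g) := by
    intro a
    have h1 : Mem (op (code a) (τ a)) g := (hgm a _).2 rfl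
    have h2 := trans_tc hg g _ _ (mem_tc hg g) h1
    have h3 : Mem (up (code a) (τ a)) (op (code a) (τ a)) := mem_up.2 (Or.inr rfl)
    have h4 := trans_tc hg g _ _ h2 h3
    exact trans_tc hg g _ _ h4 (mem_up.2 (Or.inr rfl))
  refine ⟨tc hg g, fun a => toEl (hmt a), trans_tc hg g, ?_, ?_⟩
  · refine IntF.of_rel (r := fun a y => Mem (op (code a) y.1) g) ⟨g, fun _ => Iff.rfl⟩ fun a y => ?_
    rw [hgm]
    exact ⟨fun h => Subtype.ext h.symm, fun h => (congrArg Subtype.val h).symm⟩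
  · intro a w
    obtain ⟨g1, hg1, ha⟩ := hτ a
    change Mem w (τ a) ↔ ∃ b p, E b p a ∧ w = op (τ b) (code p)
    rw [(hg1 _ _ ha).2]
    constructor
    · rintro ⟨b, p, x, hb, hx, hw⟩
      obtain ⟨b', p', h8, rfl, rfl⟩ := (mem_eg' hE).1 hb
      rw [va_unique hg.set hE hW b' ⟨g1, hg1, hx⟩ (hτ b')] at hw
      exact ⟨b', p', h8, hw⟩
    · rintro ⟨b, p, hb, hw⟩
      have hb' : Mem (op (op (code b) (code p)) (code a)) (eg hE) :=
        (mem_eg' hE).2 ⟨b, p, hb, rfl, rfl⟩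
      obtain ⟨x, hx⟩ := (hg1 _ _ ha).1 _ _ hb'
      refine ⟨code b, code p, x, hb', hx, ?_⟩
      rw [va_unique hg.set hE hW b ⟨g1, hg1, hx⟩ (hτ b)]
      exact hw

end

end Pool.Agent.T6.H70.SA
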