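import Pool.Agent.H525R3.Ground

/-!
# Generic extensions without symmetries
-/

set_option autoImplicit false
set_option linter.all false

namespace Pool.Agent.T6.H70.SA

open FirstOrder FirstOrder.Language
open Pool.Agent.Helper672 Pool.Agent.Helper672.ZFA Pool.Agent.Helper672.ZFA.H635
open Pool.Agent.Helper672.Plain (LSet)
open Pool.Agent.H525C (Gr chk chk_eq chk_inj mem_chk mem_chk_chk isPair_chk isOrdPair_chk tc
  trans_tc mem_tc)

universe u

set_option synthInstance.maxSize 2000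

section

variable {M : Type u} [L.Structure M] [hM : IsModel M]

/-- The hypotheses on a notion of forcing. -/
structure Fo (P0 le0 : M) : Prop where
  refl : ∀ p : El P0, Mem (op p.1 p.1) le0
  trans : ∀ p q r : El P0, Mem (op p.1 q.1) le0 → Mem (op q.1 r.1) le0 → Mem (op p.1 r.1) le0

/-- The type of conditions. -/
def Cn {P0 le0 : M} (_ : Fo P0 le0) : Type u := El P0

variable {P0 le0 : M} (hF : Fo P0 le0)

noncomputable instance : ITy M (Cn hF) := inferInstanceAs (ITy M (El P0))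

instance : Preorder (Cn hF) where
  le p q := Mem (op p.1 q.1) le0
  le_refl p := hF.refl p
  le_trans p q r := hF.trans p q r

theorem cn_le {p q : Cn hF} : p ≤ q ↔ Mem (op p.1 q.1) le0 := Iff.rfl

theorem cn_code (p : Cn hF) : code (M := M) p = p.1 := rfl

instance : ILE M (Cn hF) := ⟨⟨le0, fun q => Iff.rfl⟩⟩

instance : IMul M PUnit.{u+1} := ⟨IntF.const PUnit.unit⟩

instance : IInv M PUnit.{u+1} := ⟨IntF.const PUnit.unit⟩

instance : MulAction PUnit.{u+1} (Cn hF) where
  smul _ p := p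
  one_smul _ := rfl
  mul_smul _ _ _ := rfl

theorem cn_smul (π : PUnit.{u+1}) (p : Cn hF) : π • p = p := rfl

instance : ISMul M PUnit.{u+1} (Cn hF) := ⟨IntF.snd'⟩

/-- The symmetric system without symmetries. -/
def TS : SymSys M (Cn hF) PUnit.{u+1} PUnit.{u+1} where
  smul_le _ _ _ h := h
  U _ _ := True
  int_U := Int.const True
  nonempty := ⟨PUnit.unit⟩
  one _ := trivial
  mul _ _ _ _ _ := trivial
  inv _ _ _ := trivial
  dir _ _ := ⟨PUnit.unit, fun _ _ => ⟨trivial, trivial⟩⟩
  conj _ _ := ⟨PUnit.unit, fun _ _ => trivial⟩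

variable {α β : Type u} [ITy M α] [ITy M β]

theorem tw_triv (π : PUnit.{u+1}) (E : α → Cn hF → α → Prop) : tw π E = E := rfl

theorem good_triv {E : α → Cn hF → α → Prop} (h1 : IG M E) (h2 : WFI M E) : Good (TS hF) E :=
  ⟨h1, h2, fun a => ⟨PUnit.unit, fun π _ p => FEq.refl p a⟩⟩

variable {G : Set (Cn hF)} (hG : IsGen M G)

/-- All internal families are equivariant. -/
theorem eqFam_nd {E : α → Cn hF → α → Prop} (h : Good (TS hF) E) {g : β → α} (hg : IntF M g) :
    EqFam (S := TS hF) hG (fun _ c => c) (fun c => nd hG h (g c)) :=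
  ⟨α, _, E, h, g, hg, fun _ => rfl, fun π p c => FEq.refl p (g c)⟩

variable (hg : Gr M)

/-- The family of the elements of a set of the ground model. -/
theorem eqFam_chk {t : M} {g : β → El t} (hgi : IntF M g) :
    EqFam (S := TS hF) hG (fun _ c => c) (fun c => chk hg hG (g c).1) := by
  have h1 : IntF M (fun c => toEl (trans_tc hg t _ _ (mem_tc hg t) (g c).2) : β → El (tc hg t)) := by
    have h2 : Int M (fun q : El t × El (tc hg t) => q.1.1 = q.2.1) := int_veq
    have h3 : Int M (fun q : β × El (tc hg t) => (g q.1).1 = q.2.1) :=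
      Int.comp₂ (p := fun (a : El t) (b : El (tc hg t)) => a.1 = b.1) h2 (hgi.comp IntF.fst')
        IntF.snd'
    refine IntF.of_rel (r := fun c d => (g c).1 = d.1) h3 fun c d => ?_
    exact ⟨fun h => Subtype.ext h, fun h => congrArg Subtype.val h⟩
  have h2 := eqFam_nd hF hG (good_chE (S := TS hF) hg.found (tc hg t)) h1
  refine Eq.mp (congrArg (EqFam (S := TS hF) hG (fun _ c => c)) ?_) h2
  funext c
  exact (chk_eq hg hG (trans_tc hg t) (trans_tc hg t _ _ (mem_tc hg t) (g c).2)).symm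

/-- The set of the pairs given by two families. -/
theorem exists_pairs {f f' : β → NN (TS hF) hG}
    (h : EqFam (S := TS hF) hG (fun _ c => c) f) (h' : EqFam (S := TS hF) hG (fun _ c => c) f')
    {Z : β → Prop} (hZ : Int M Z) :
    ∃ z : NN (TS hF) hG, ∀ w, Plain.Mem w z ↔ ∃ c, Z c ∧ w = ZFA.op (f c) (f' c) :=
  (h.op (fun _ _ => rfl) h').set hZ ⟨PUnit.unit, fun _ _ _ h => h⟩

/-- The generic filter as an element of the extension. -/
theorem exists_GN : ∃ g : NN (TS hF) hG, ∀ w, Plain.Mem w g ↔ ∃ p : Cn hF, p ∈ G ∧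
    w = chk hg hG p.1 := by
  have hd : ∀ p : Cn hF, Mem p.1 (tc hg P0) := fun p => trans_tc hg P0 _ _ (mem_tc hg P0) p.2
  have hQ : Int M (fun q : El (tc hg P0) × Cn hF => q.1.1 = q.2.1) := by
    refine Int.of_D₂ (S := fun v => v 0 = v 1) (D.eqf (DF.var _) (DF.var _)) fun _ _ => Iff.rfl
  obtain ⟨g, h⟩ := exists_set hG (good_chE (S := TS hF) hg.found (tc hg P0))
    (Q := fun a s => a.1 = s.1) hQ ⟨PUnit.unit, by
      intro π _ a r h1 q hq
      exact ⟨q, le_rfl, a, r, h1, hq, FEq.refl _ _⟩⟩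
  refine ⟨g, fun w => (h w).trans ?_⟩
  constructor
  · rintro ⟨a, s, hs, h1, rfl⟩
    refine ⟨s, hs, ?_⟩
    rw [← h1]
    exact (chk_eq hg hG (trans_tc hg P0) a.2).symm
  · rintro ⟨p, hp, rfl⟩
    exact ⟨toEl (hd p), p, hp, rfl, chk_eq hg hG (trans_tc hg P0) (hd p)⟩

end

end Pool.Agent.T6.H70.SA
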