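import Pool.Agent.T6.H70.SA.Defs
import Pool.Agent.T6.H70.SA.Triv
import Pool.Agent.T6.H70.SA.Mos
import Pool.Agent.H525R3.FamU

/-!
# The generic extensions of a countable model of ZFC
-/

set_option autoImplicit false
set_option linter.all false

namespace Pool.Agent.T6.H70.SA

open FirstOrder FirstOrder.Language
open Pool.Agent.Helper672 Pool.Agent.Helper672.ZFA Pool.Agent.Helper672.ZFA.H635
open Pool.Agent.Helper672.Plain (LSet)
open Pool.Agent.H635Amen (ZF)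
open Pool.Agent.H525C (Gr chk chk_eq chk_inj mem_chk mem_chk_chk isPair_chk isOrdPair_chk tc
  trans_tc mem_tc nn_isPair nn_isOrdPair)

universe u

set_option synthInstance.maxSize 2000

section

variable {M : Type u} [L.Structure M] [hM : IsModel M]
variable {P0 le0 : M} (hF : Fo P0 le0)
variable {α β : Type u} [ITy M α] [ITy M β]
variable {G : Set (Cn hF)} (hG : IsGen M G) (hg : Gr M)

theorem pmem_chk {x y s : M} :
    PMem (chk (S := TS hF) hg hG x) (chk hg hG y) (chk hg hG s) ↔ Mem (ZFA.op x y) s := by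
  constructor
  · rintro ⟨q, h1, h2⟩
    obtain ⟨z, h3, rfl⟩ := (mem_chk hg hG).1 h2
    have h4 := (nn_isOrdPair hG).1 h1
    have h5 := (nn_isOrdPair hG).1 (isOrdPair_chk (S := TS hF) hg hG x y)
    rw [← h5, chk_inj] at h4
    rwa [← h4]
  · intro h
    exact ⟨_, isOrdPair_chk hg hG _ _, (mem_chk_chk hg hG).2 h⟩

/-- `chk` is a transitive embedding. -/
theorem pmem_chk_right {r p : NN (TS hF) hG} {s : M} :
    PMem r p (chk hg hG s) ↔ ∃ x y, r = chk hg hG x ∧ p = chk hg hG y ∧ Mem (ZFA.op x y) s := by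
  constructor
  · rintro ⟨q, h1, h2⟩
    obtain ⟨z, h3, rfl⟩ := (mem_chk hg hG).1 h2
    obtain ⟨a, b, h4, h5, h6⟩ := h1
    obtain ⟨a', h7, rfl⟩ := (mem_chk hg hG).1 ((h6 a).2 (Or.inl rfl))
    obtain ⟨b', h8, rfl⟩ := (mem_chk hg hG).1 ((h6 b).2 (Or.inr rfl))
    obtain ⟨r', h9, rfl⟩ := (mem_chk hg hG).1 ((h4 r).2 (Or.inl rfl))
    obtain ⟨p', h10, rfl⟩ := (mem_chk hg hG).1 ((h5 p).2 (Or.inr rfl))
    refine ⟨r', p', rfl, rfl, ?_⟩
    rw [isPair_chk] at h4 h5 h6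
    rw [h6, h4, h5] at h3
    exact h3
  · rintro ⟨x, y, rfl, rfl, h⟩
    exact (pmem_chk hF hG hg).2 h

theorem isTransEmb_inj : Function.Injective (chk (S := TS hF) hg hG) := fun _ _ h =>
  (chk_inj hg hG).1 h

/-- The generic filter as an element of the extension. -/
noncomputable def GE : NN (TS hF) hG := (exists_GN hF hG hg).choose

theorem mem_GE {w : NN (TS hF) hG} : Plain.Mem w (GE hF hG hg) ↔ ∃ p : Cn hF, p ∈ G ∧
    w = chk hg hG p.1 := (exists_GN hF hG hg).choose_spec w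

theorem chk_mem_GE {p : Cn hF} : Plain.Mem (chk hg hG p.1) (GE hF hG hg) ↔ p ∈ G := by
  rw [mem_GE]
  constructor
  · rintro ⟨p', h1, h2⟩
    have h3 : p = p' := Subtype.ext ((chk_inj hg hG).1 h2)
    rw [h3]
    exact h1
  · exact fun h => ⟨p, h, rfl⟩

section

variable {E : α → Cn hF → α → Prop} (h : Good (TS hF) E)

theorem exists_isValue (a : α) : ∃ τ : M, IsValue (GE hF hG hg) (chk hg hG τ) (nd hG h a) := by
  obtain ⟨t, τ, ht, hτ, hm⟩ := exists_names hg h.int h.wf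
  obtain ⟨R, hR⟩ := exists_pairs hF hG (eqFam_chk hF hG hg hτ) (eqFam_nd hF hG h IntF.id)
    (Int.const (M := M) (α := α) True)
  have hR' : ∀ r y, PMem r y R ↔ ∃ b, r = chk hg hG (τ b).1 ∧ y = nd hG h b := by
    intro r y
    constructor
    · rintro ⟨q, h1, h2⟩
      obtain ⟨x, -, h3⟩ := (hR q).1 h2
      have h4 := (nn_isOrdPair hG).1 h1
      exact ⟨x, op_inj (h4.symm.trans h3)⟩
    · rintro ⟨x, rfl, rfl⟩
      exact ⟨_, (nn_isOrdPair hG).2 rfl, (hR _).2 ⟨x, trivial, rfl⟩⟩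
  refine ⟨(τ a).1, R, ?_, (hR' _ _).2 ⟨a, rfl, rfl⟩⟩
  intro σ y hy
  obtain ⟨x, rfl, rfl⟩ := (hR' _ _).1 hy
  constructor
  · intro z hz
    obtain ⟨y, s, hs, h1, rfl⟩ := (mem_nd hG h).1 hz
    exact ⟨_, _, (pmem_chk hF hG hg).2 ((hm _ _).2 ⟨y, s, h1, rfl⟩),
      (chk_mem_GE hF hG hg).2 hs, (hR' _ _).2 ⟨y, rfl, rfl⟩⟩
  · intro r p h1 h2
    obtain ⟨r', p', rfl, rfl, h3⟩ := (pmem_chk_right hF hG hg).1 h1
    obtain ⟨b, s, h4, h5⟩ := (hm _ _).1 h3
    obtain ⟨rfl, rfl⟩ := op_inj h5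
    have h6 : s ∈ G := (chk_mem_GE hF hG hg).1 h2
    exact ⟨nd hG h b, (mem_nd hG h).2 ⟨b, s, h6, h4, rfl⟩, (hR' _ _).2 ⟨b, rfl, rfl⟩⟩

end

/-- Every element of the extension is the value of a name. -/
theorem exists_name (x : NN (TS hF) hG) :
    ∃ τ : M, IsValue (GE hF hG hg) (chk hg hG τ) x := by
  obtain ⟨n, rfl⟩ := exists_mk hG x
  rw [mk_eq_nd]
  exact exists_isValue hF hG hg n.good n.root

/-! ### The axiom of choice -/

/-- The ordinals of the ground model are ordinals. -/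
theorem isOrdinal_chk {k : M} (h1 : ∀ x y, Mem x k → Mem y x → Mem y k)
    (h2 : ∀ x y, Mem x k → Mem y k → Mem x y ∨ x = y ∨ Mem y x) :
    IsOrdinal (chk (S := TS hF) hg hG k) := by
  constructor
  · intro x y hx hy
    obtain ⟨x', h3, rfl⟩ := (mem_chk hg hG).1 hx
    obtain ⟨y', h4, rfl⟩ := (mem_chk hg hG).1 hy
    exact (mem_chk_chk hg hG).2 (h1 _ _ h3 h4)
  · intro x y hx hy
    obtain ⟨x', h3, rfl⟩ := (mem_chk hg hG).1 hx
    obtain ⟨y', h4, rfl⟩ := (mem_chk hg hG).1 hy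
    rw [mem_chk_chk, mem_chk_chk, chk_inj]
    exact h2 _ _ h3 h4

/-- The axiom of choice for an element. -/
def CH' (x : M) : Prop := ∃ k f : M, ((∀ x y, Mem x k → Mem y x → Mem y k) ∧
    (∀ x y, Mem x k → Mem y k → Mem x y ∨ x = y ∨ Mem y x)) ∧
    (∀ y z w, Mem (ZFA.op y z) f → Mem (ZFA.op y w) f → z = w) ∧
    ∀ z, Mem z x → ∃ y, Mem y k ∧ Mem (ZFA.op y z) f

include hg in
theorem nn_choice_aux (hC : ∀ x : M, CH' x) {E : α → Cn hF → α → Prop} (h : Good (TS hF) E)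
    (a : α) : ∃ k f : NN (TS hF) hG, IsOrdinal k ∧
      (∀ y z w, PMem y z f → PMem y w f → z = w) ∧
      ∀ z, Plain.Mem z (nd hG h a) → ∃ y, Plain.Mem y k ∧ PMem y z f := by
  obtain ⟨k, f, ⟨h1, h2⟩, h3, h4⟩ := hC (dom M α)
  have hZ : Int M (fun c : El k × α => Mem (ZFA.op c.1.1 (code c.2)) f) := ⟨f, fun c => Iff.rfl⟩
  have e1 := eqFam_chk (β := El k × α) hF hG hg (t := k) (g := Prod.fst) IntF.fst'
  have e2 := eqFam_nd (β := El k × α) hF hG h (g := Prod.snd) IntF.snd'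
  obtain ⟨F, hFF⟩ := exists_pairs hF hG e1 e2 hZ
  have hR' : ∀ r y, PMem r y F ↔ ∃ (ξ : El k) (b : α), Mem (ZFA.op ξ.1 (code b)) f ∧
      r = chk hg hG ξ.1 ∧ y = nd hG h b := by
    intro r y
    constructor
    · rintro ⟨q, h1, h2⟩
      obtain ⟨x, h3, h5⟩ := (hFF q).1 h2
      have h4 := (nn_isOrdPair hG).1 h1
      exact ⟨x.1, x.2, h3, op_inj (h4.symm.trans h5)⟩
    · rintro ⟨ξ, b, h5, rfl, rfl⟩
      exact ⟨_, (nn_isOrdPair hG).2 rfl, (hFF _).2 ⟨(ξ, b), h5, rfl⟩⟩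
  refine ⟨chk hg hG k, F, isOrdinal_chk hF hG hg h1 h2, ?_, ?_⟩
  · intro y z w hz hw
    obtain ⟨ξ, b, h5, rfl, rfl⟩ := (hR' _ _).1 hz
    obtain ⟨ξ', b', h6, h7, rfl⟩ := (hR' _ _).1 hw
    rw [chk_inj] at h7
    rw [← h7] at h6
    have h8 : code b = code b' := h3 _ _ _ h5 h6
    rw [ITy.inj h8]
  · intro z hz
    obtain ⟨b, s, -, -, rfl⟩ := (mem_nd hG h).1 hz
    obtain ⟨y, h5, h6⟩ := h4 (code b) (code_mem_dom b)
    exact ⟨chk hg hG y, (mem_chk_chk hg hG).2 h5, (hR' _ _).2 ⟨⟨y, h5⟩, b, h6, rfl, rfl⟩⟩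

include hg in
theorem nn_choice (hC : ∀ x : M, CH' x) (x : NN (TS hF) hG) :
    ∃ k f : NN (TS hF) hG, IsOrdinal k ∧ (∀ y z w, PMem y z f → PMem y w f → z = w) ∧
      ∀ z, Plain.Mem z x → ∃ y, Plain.Mem y k ∧ PMem y z f := by
  obtain ⟨n, rfl⟩ := exists_mk hG x
  rw [mk_eq_nd]
  exact nn_choice_aux hF hG hg hC n.good n.root

end

/-! ### Models for the language of set theory -/

section

attribute [local instance] toL

variable {M : Type u} [LSet.Structure M]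

theorem pl_isPair [IsModel M] {p x y : M} : Plain.IsPair p x y ↔ p = up x y := by
  rw [eq_up]
  exact ⟨fun h => ⟨trivial, h⟩, fun h => h.2⟩

theorem pl_isOrdPair [IsModel M] {p x y : M} : Plain.IsOrdPair p x y ↔ p = ZFA.op x y := by
  constructor
  · rintro ⟨s, d, h1, h2, h3⟩
    rw [pl_isPair] at h1 h2 h3
    subst h1 h2
    exact h3
  · rintro rfl
    exact ⟨up x x, up x y, pl_isPair.2 rfl, pl_isPair.2 rfl, pl_isPair.2 rfl⟩

theorem pl_pmem [IsModel M] {x y s : M} : PMem x y s ↔ Mem (ZFA.op x y) s := by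
  constructor
  · rintro ⟨q, h1, h2⟩
    rw [pl_isOrdPair] at h1
    subst h1
    exact h2
  · exact fun h => ⟨_, pl_isOrdPair.2 rfl, h⟩

theorem gr_of_zf [IsModel M] (h : ZF M) : Gr M where
  set _ := trivial
  repl F hD a h1 := h.replacement {p | F p.1 p.2} (definable_of_toL hD) a h1
  found := h.foundation

theorem fo_of_isPoset [IsModel M] {P le : M} (h : IsPoset P le) : Fo P le where
  refl p := pl_pmem.1 (h.refl p.1 p.2)
  trans p q r h1 h2 := pl_pmem.1 (h.trans p.1 q.1 r.1 p.2 q.2 r.2 (pl_pmem.2 h1) (pl_pmem.2 h2))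

theorem ch_of_zfc [IsModel M] (h : ZFC M) (x : M) : CH' x := by
  obtain ⟨k, f, h1, h2, h3⟩ := h.choice x
  refine ⟨k, f, ⟨h1.trans, h1.total⟩, fun y z w h4 h5 => h2 y z w (pl_pmem.2 h4) (pl_pmem.2 h5),
    fun z hz => ?_⟩
  obtain ⟨y, h4, h5⟩ := h3 z hz
  exact ⟨y, h4, pl_pmem.1 h5⟩

/-- **The generic extensions of a countable model of ZFC exist.** -/
theorem exists_gext (M : Type u) [LSet.Structure M] [Countable M] [hZ : ZFC M] {P le : M}
    (hP : IsPoset P le) : ∃ (N' : Type u) (_ : LSet.Structure N') (_ : ZFC N') (j : M → N')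
      (G : N'), IsGenericExtension j P le G := by
  have hM : IsModel M := isModel_of_zermelo hZ.toZermelo
  have hg : Gr M := gr_of_zf hZ.toZF
  have hF : Fo P le := fo_of_isPoset hP
  obtain ⟨p0, hp0⟩ := hP.ne
  obtain ⟨G, hG⟩ := exists_gen (M := M) (P := Cn hF) (⟨p0, hp0⟩ : El P)
  have hzf : ZF (NN (TS hF) hG) := nn_zf hG (coll_of_zf hZ.toZF)
  have hle : ∀ {p q : Cn hF}, p ≤ q ↔ PMem p.1 q.1 le := pl_pmem.symm
  have hzfc : ZFC (NN (TS hF) hG) :=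
    { toZF := hzf, choice := nn_choice hF hG hg (ch_of_zfc hZ) }
  refine ⟨NN (TS hF) hG, inferInstance, hzfc, chk hg hG, GE hF hG hg, ?_, ?_,
    exists_name hF hG hg⟩
  · exact ⟨isTransEmb_inj hF hG hg, fun x y => mem_chk_chk hg hG, fun x z hz => by
      obtain ⟨y, -, rfl⟩ := (mem_chk hg hG).1 hz
      exact ⟨y, rfl⟩⟩
  · constructor
    · intro x hx
      obtain ⟨p, -, rfl⟩ := (mem_GE hF hG hg).1 hx
      exact ⟨p.1, p.2, rfl⟩
    · obtain ⟨p, hp⟩ := hG.ne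
      exact ⟨_, (chk_mem_GE hF hG hg).2 hp⟩
    · intro p q hp hq h1 h2
      have h3 := (chk_mem_GE hF hG hg (p := (⟨p, hp⟩ : El P))).1 h1
      exact (chk_mem_GE hF hG hg (p := (⟨q, hq⟩ : El P))).2 (hG.up _ _ h3 (hle.2 h2))
    · intro p q h1 h2
      obtain ⟨p', h3, h4⟩ := (mem_GE hF hG hg).1 h1
      obtain ⟨q', h5, h6⟩ := (mem_GE hF hG hg).1 h2
      rw [chk_inj] at h4 h6
      subst h4 h6
      obtain ⟨r, hr, h7, h8⟩ := hG.dir p' q' h3 h5
      exact ⟨r.1, (chk_mem_GE hF hG hg).2 hr, hle.1 h7, hle.1 h8⟩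
    · intro D hD hd
      obtain ⟨p, hp, h1⟩ := hG.dense (fun p => Mem p.1 D) ⟨D, fun _ => Iff.rfl⟩ (by
        intro p
        obtain ⟨d, h2, h3⟩ := hd p.1 p.2
        exact ⟨(⟨d, hD d h2⟩ : El P), hle.2 h3, h2⟩)
      exact ⟨p.1, h1, (chk_mem_GE hF hG hg).2 hp⟩

end

end Pool.Agent.T6.H70.SA
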