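import Pool.Agent.T6.H70.SA.UD

/-!
# Absoluteness of bounded formulas, uniqueness of the first cardinals
-/

set_option autoImplicit false
set_option linter.all false

namespace Pool.Agent.T6.H70.SA

open FirstOrder FirstOrder.Language
open Pool.Agent.Helper672.Plain (LSet Mem IsOrdPair IsPair Zermelo)
open Pool.Agent.H635Amen (ZF)

universe u v

section abs

variable {N : Type u} [LSet.Structure N] {N' : Type v} [LSet.Structure N'] {j : N → N'}

theorem realize_memF {α : Type} {n : ℕ} (t s : LSet.Term (α ⊕ Fin n)) (v : α → N)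
    (xs : Fin n → N) : (memF t s).Realize v xs ↔
      Mem (t.realize (Sum.elim v xs)) (s.realize (Sum.elim v xs)) := by
  have h : (BoundedFormula.Realize (Relations.boundedFormula₂ memSym t s) v xs) ↔
      Mem (t.realize (Sum.elim v xs)) (s.realize (Sum.elim v xs)) := by
    rw [BoundedFormula.realize_rel₂]
    rfl
  exact h

/-- Bounded formulas are absolute. -/
theorem delta0_abs (hj : IsTransEmb j) {α : Type} {n : ℕ} {φ : LSet.BoundedFormula α n}
    (h : IsDelta0 φ) (v : α → N) (xs : Fin n → N) :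
    φ.Realize (fun i => j (v i)) (fun i => j (xs i)) ↔ φ.Realize v xs := by
  have hel : ∀ {n : ℕ} (v : α → N) (xs : Fin n → N) (s : α ⊕ Fin n),
      Sum.elim (fun i => j (v i)) (fun i => j (xs i)) s = j (Sum.elim v xs s) := by
    intro n v xs s
    rcases s with s | s <;> rfl
  induction h with
  | falsum => exact Iff.rfl
  | eq s t =>
    rw [BoundedFormula.realize_bdEqual, BoundedFormula.realize_bdEqual]
    simp only [Term.realize_var]
    rw [hel, hel]
    exact hj.inj.eq_iff
  | mem s t =>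
    rw [realize_memF, realize_memF]
    simp only [Term.realize_var]
    rw [hel, hel]
    exact hj.mem _ _
  | imp _ _ ih1 ih2 =>
    rw [BoundedFormula.realize_imp, BoundedFormula.realize_imp]
    exact imp_congr (ih1 xs) (ih2 xs)
  | @ball n t φ _ ih =>
    rw [BoundedFormula.realize_all, BoundedFormula.realize_all]
    have hsn : ∀ x : N, (Fin.snoc (fun i => j (xs i)) (j x) : Fin (n + 1) → N') =
        fun i => j ((Fin.snoc xs x : Fin (n + 1) → N) i) := by
      intro x
      funext i
      refine Fin.lastCases ?_ (fun i => ?_) i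
      · simp only [Fin.snoc_last]
      · simp only [Fin.snoc_castSucc]
    have ht : ∀ {K : Type u} (v : α → K) (xs : Fin n → K) (x : K),
        Sum.elim v (Fin.snoc xs x : Fin (n + 1) → K) (Sum.map id Fin.castSucc t) =
          Sum.elim v xs t := by
      intro K v xs x
      rcases t with t | t
      · rfl
      · simp only [Sum.map_inr, Sum.elim_inr, Fin.snoc_castSucc]
    have ht' : ∀ {K : Type v} (v : α → K) (xs : Fin n → K) (x : K),
        Sum.elim v (Fin.snoc xs x : Fin (n + 1) → K) (Sum.map id Fin.castSucc t) =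
          Sum.elim v xs t := by
      intro K v xs x
      rcases t with t | t
      · rfl
      · simp only [Sum.map_inr, Sum.elim_inr, Fin.snoc_castSucc]
    constructor
    · intro h x
      have h1 := h (j x)
      rw [BoundedFormula.realize_imp, realize_memF] at h1 ⊢
      simp only [Term.realize_var] at h1 ⊢
      intro hx
      rw [ht'] at h1
      rw [ht] at hx
      simp only [Sum.elim_inr, Fin.snoc_last] at h1 hx
      rw [hsn] at h1
      refine (ih (Fin.snoc xs x)).1 (h1 ?_)
      rw [hel]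
      exact (hj.mem _ _).2 hx
    · intro h y
      rw [BoundedFormula.realize_imp, realize_memF]
      simp only [Term.realize_var]
      intro hy
      rw [ht'] at hy
      simp only [Sum.elim_inr, Fin.snoc_last] at hy
      rw [hel] at hy
      obtain ⟨x, rfl⟩ := hj.trans _ _ hy
      have h1 := h x
      rw [BoundedFormula.realize_imp, realize_memF] at h1
      simp only [Term.realize_var] at h1
      rw [ht] at h1
      simp only [Sum.elim_inr, Fin.snoc_last] at h1
      rw [hsn]
      exact (ih (Fin.snoc xs x)).2 (h1 ((hj.mem _ _).1 hy))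

/-- `Σ₁` formulas are upwards absolute. -/
theorem sigma1_up (hj : IsTransEmb j) {α : Type} {φ : LSet.Formula α} (h : IsSigma1 φ)
    (v : α → N) (hv : φ.Realize v) : φ.Realize (fun i => j (v i)) := by
  obtain ⟨ψ, hψ, rfl⟩ := h
  unfold Formula.Realize at hv ⊢
  rw [BoundedFormula.realize_ex] at hv ⊢
  obtain ⟨x, hx⟩ := hv
  refine ⟨j x, ?_⟩
  have h1 := (delta0_abs hj hψ v (Fin.snoc default x)).2 hx
  refine Eq.mp (congrArg (ψ.Realize _) ?_) h1
  funext i
  refine Fin.lastCases ?_ (fun i => i.elim0) i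
  simp only [Fin.snoc_last]

end abs

section unique

variable {N : Type u} [LSet.Structure N] [hN : ZF N]

theorem mem_irrefl (x : N) : ¬ Mem x x := by
  intro h
  obtain ⟨p, hp⟩ := hN.pairing x x
  obtain ⟨y, h1, h2⟩ := hN.foundation p ⟨x, (hp x).2 (Or.inl rfl)⟩
  have h3 : y = x := ((hp y).1 h1).elim id id
  subst h3
  exact h2 y h1 h

theorem mem_asymm {x y : N} (h : Mem x y) (h' : Mem y x) : False := by
  obtain ⟨p, hp⟩ := hN.pairing x y
  obtain ⟨z, h1, h2⟩ := hN.foundation p ⟨x, (hp x).2 (Or.inl rfl)⟩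
  rcases (hp z).1 h1 with rfl | rfl
  · exact h2 y ((hp y).2 (Or.inr rfl)) h'
  · exact h2 x ((hp x).2 (Or.inl rfl)) h

theorem exists_diff (x y : N) : ∃ z, ∀ w, Mem w z ↔ Mem w y ∧ ¬ Mem w x := by
  let _ := Pool.Agent.Helper672.ZFA.H635.toL N
  obtain ⟨z, hz⟩ := hN.separation {w | ¬ Mem w x}
    (Pool.Agent.Helper672.ZFA.H635.definable_of_toL (Pool.Agent.Helper672.ZFA.D.not
      (Pool.Agent.Helper672.ZFA.D.memf (Pool.Agent.Helper672.ZFA.DF.var _)
        (Pool.Agent.Helper672.ZFA.DF.const _)))) y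
  exact ⟨z, hz⟩

theorem exists_inter (x y : N) : ∃ z, ∀ w, Mem w z ↔ Mem w y ∧ Mem w x := by
  let _ := Pool.Agent.Helper672.ZFA.H635.toL N
  obtain ⟨z, hz⟩ := hN.separation {w | Mem w x}
    (Pool.Agent.Helper672.ZFA.H635.definable_of_toL
      (Pool.Agent.Helper672.ZFA.D.memf (Pool.Agent.Helper672.ZFA.DF.var _)
        (Pool.Agent.Helper672.ZFA.DF.const _))) y
  exact ⟨z, hz⟩

theorem IsOrdinal.mem_of_sub {x y : N} (hx : IsOrdinal x) (hy : IsOrdinal y)
    (h : ∀ z, Mem z x → Mem z y) (hne : x ≠ y) : Mem x y := by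
  obtain ⟨d, hd⟩ := exists_diff x y
  have hd' : ∃ z, Mem z d := by
    by_contra hcon
    push Not at hcon
    refine hne (hN.ext x y fun z => ⟨h z, fun hz => ?_⟩)
    by_contra hzx
    exact hcon z ((hd z).2 ⟨hz, hzx⟩)
  obtain ⟨m, hm, hmin⟩ := hN.foundation d hd'
  obtain ⟨hmy, hmx⟩ := (hd m).1 hm
  have hmx' : m = x := by
    refine hN.ext m x fun z => ⟨fun hz => ?_, fun hz => ?_⟩
    · by_contra hzx
      exact hmin z ((hd z).2 ⟨hy.trans _ _ hmy hz, hzx⟩) hz
    · rcases hy.total z m (h z hz) hmy with h1 | h1 | h1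
      · exact h1
      · exact absurd (h1 ▸ hz) hmx
      · exact absurd (hx.trans _ _ hz h1) hmx
  rwa [hmx'] at hmy

theorem IsOrdinal.inter {x y z : N} (hx : IsOrdinal x) (hy : IsOrdinal y)
    (hz : ∀ w, Mem w z ↔ Mem w y ∧ Mem w x) : IsOrdinal z where
  trans a b ha hb := by
    obtain ⟨h1, h2⟩ := (hz a).1 ha
    exact (hz b).2 ⟨hy.trans _ _ h1 hb, hx.trans _ _ h2 hb⟩
  total a b ha hb := hx.total a b ((hz a).1 ha).2 ((hz b).1 hb).2

theorem IsOrdinal.cmp {x y : N} (hx : IsOrdinal x) (hy : IsOrdinal y) :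
    Mem x y ∨ x = y ∨ Mem y x := by
  obtain ⟨z, hz⟩ := exists_inter x y
  have hzo := hx.inter hy hz
  by_cases h1 : z = x
  · by_cases h2 : x = y
    · exact Or.inr (Or.inl h2)
    · exact Or.inl (hx.mem_of_sub hy (fun w hw => ((hz w).1 (h1.symm ▸ hw)).1) h2)
  · by_cases h2 : z = y
    · by_cases h3 : x = y
      · exact Or.inr (Or.inl h3)
      · exact Or.inr (Or.inr (hy.mem_of_sub hx (fun w hw => ((hz w).1 (h2.symm ▸ hw)).2)
          (Ne.symm h3)))
    · have h3 := hzo.mem_of_sub hx (fun w hw => ((hz w).1 hw).2) h1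
      have h4 := hzo.mem_of_sub hy (fun w hw => ((hz w).1 hw).1) h2
      exact absurd ((hz z).2 ⟨h4, h3⟩) (mem_irrefl z)

theorem IsOmega.not_mem {w w' : N} (h : IsOmega w) (h' : IsOmega w') : ¬ Mem w w' := by
  intro hm
  obtain ⟨y, hy, hy'⟩ := h'.least w hm h.ne
  obtain ⟨z, hz, hyz⟩ := h.lim y hy
  exact hy' z hz hyz

theorem IsOmega.unique {w w' : N} (h : IsOmega w) (h' : IsOmega w') : w = w' := by
  rcases h.ord.cmp h'.ord with h1 | h1 | h1
  · exact absurd h1 (h.not_mem h')
  · exact h1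
  · exact absurd h1 (h'.not_mem h)

theorem IsNextCardinal.not_mem {k k' c : N} (h : IsNextCardinal k c)
    (h' : IsNextCardinal k' c) : ¬ Mem k k' := by
  intro hm
  rcases h'.least k hm h.card with h1 | h1
  · have := h.mem
    rw [h1] at this
    exact mem_irrefl _ this
  · exact mem_asymm h1 h.mem

theorem IsNextCardinal.unique {k k' c : N} (h : IsNextCardinal k c)
    (h' : IsNextCardinal k' c) : k = k' := by
  rcases h.card.ord.cmp h'.card.ord with h1 | h1 | h1
  · exact absurd h1 (h.not_mem h')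
  · exact h1
  · exact absurd h1 (h'.not_mem h)

theorem IsOmega1.unique {a a' : N} (h : IsOmega1 a) (h' : IsOmega1 a') : a = a' := by
  obtain ⟨w, hw, h1⟩ := h
  obtain ⟨w', hw', h2⟩ := h'
  obtain rfl := hw.unique hw'
  exact h1.unique h2

theorem IsOmega2.unique {b b' : N} (h : IsOmega2 b) (h' : IsOmega2 b') : b = b' := by
  obtain ⟨a, ha, h1⟩ := h
  obtain ⟨a', ha', h2⟩ := h'
  obtain rfl := ha.unique ha'
  exact h1.unique h2

end unique

end Pool.Agent.T6.H70.SA
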