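import Pool.Agent.T6.H70.SA.VM

/-!
# A countable model of ZFC whose `Σ₁` statements about `ω₁` and `ω₂` are maximal
-/

set_option autoImplicit false
set_option linter.all false

namespace Pool.Agent.T6.H70.SA

open FirstOrder FirstOrder.Language
open Pool.Agent.Helper672.Plain (LSet Mem IsOrdPair IsPair Zermelo)
open Pool.Agent.H635Amen (ZF)

/-- The sentence `φ(ω₁, ω₂)`. -/
noncomputable def sen (φ : LSet.Formula (Fin 2)) : LSet.Sentence := (us_fml φ).sent.choose

theorem sen_iff (φ : LSet.Formula (Fin 2)) (N : Type) [LSet.Structure N] :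
    N ⊨ sen φ ↔ ∃ a b : N, (IsOmega1 a ∧ IsOmega2 b) ∧ φ.Realize ![a, b] :=
  (us_fml φ).sent.choose_spec.1 N

/-- The sentence `ω₁` and `ω₂` exist. -/
noncomputable def sen0 : LSet.Sentence := us_cardinals.sent.choose

theorem sen0_iff (N : Type) [LSet.Structure N] :
    N ⊨ sen0 ↔ ∃ a b : N, IsOmega1 a ∧ IsOmega2 b :=
  us_cardinals.sent.choose_spec.1 N

theorem sen0_iff' (N : Type 1) [LSet.Structure N] :
    N ⊨ sen0 ↔ ∃ a b : N, IsOmega1 a ∧ IsOmega2 b :=
  us_cardinals.sent.choose_spec.2 N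

/-- The theory given by a set of `Σ₁` formulas. -/
def Th (S : Set (LSet.Formula (Fin 2))) : LSet.Theory := zfcT ∪ {sen0} ∪ sen '' S

theorem Th_model {S : Set (LSet.Formula (Fin 2))} {N : Type} [LSet.Structure N] :
    N ⊨ Th S ↔ ZFC N ∧ (∃ a b : N, IsOmega1 a ∧ IsOmega2 b) ∧
      ∀ φ ∈ S, ∃ a b : N, (IsOmega1 a ∧ IsOmega2 b) ∧ φ.Realize ![a, b] := by
  constructor
  · intro h
    refine ⟨?_, ?_, ?_⟩
    · exact zfc_of_zfcT (h.mono fun σ hσ => Or.inl (Or.inl hσ))
    · exact (sen0_iff N).1 (h.realize_of_mem _ (Or.inl (Or.inr rfl)))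
    · intro φ hφ
      exact (sen_iff φ N).1 (h.realize_of_mem _ (Or.inr ⟨φ, hφ, rfl⟩))
  · rintro ⟨h1, h2, h3⟩
    refine ⟨fun σ hσ => ?_⟩
    rcases hσ with (hσ | hσ) | ⟨φ, hφ, rfl⟩
    · exact (zfcT_of h1).realize_of_mem σ hσ
    · rw [Set.mem_singleton_iff] at hσ
      rw [hσ]
      exact (sen0_iff N).2 h2
    · exact (sen_iff φ N).2 (h3 φ hφ)

theorem sat_empty : (Th ∅).IsSatisfiable := by
  let _ : LSet.Structure ZFSet.{0} := strV
  have h : ZFSet.{0} ⊨ Th ∅ := by
    refine ⟨fun σ hσ => ?_⟩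
    rcases hσ with (hσ | hσ) | ⟨φ, hφ, rfl⟩
    · exact (zfcT_of' zfc_V).realize_of_mem σ hσ
    · rw [Set.mem_singleton_iff] at hσ
      rw [hσ]
      exact (sen0_iff' ZFSet.{0}).2 cardinals_V
    · exact absurd hφ (Set.notMem_empty φ)
  have : Nonempty ZFSet.{0} := ⟨∅⟩
  exact Theory.Model.isSatisfiable ZFSet.{0}

theorem exists_max : ∃ S : Set (LSet.Formula (Fin 2)), (∀ φ ∈ S, IsSigma1 φ) ∧
    (Th S).IsSatisfiable ∧ ∀ φ, IsSigma1 φ → (Th (insert φ S)).IsSatisfiable → φ ∈ S := by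
  obtain ⟨S, hS⟩ := zorn_subset {S : Set (LSet.Formula (Fin 2)) | (∀ φ ∈ S, IsSigma1 φ) ∧
    (Th S).IsSatisfiable} (by
      intro c hc hch
      by_cases hne : c.Nonempty
      · refine ⟨⋃₀ c, ⟨?_, ?_⟩, fun s hs => Set.subset_sUnion_of_mem hs⟩
        · rintro φ ⟨s, hs, hφ⟩
          exact (hc hs).1 φ hφ
        · have _ : Nonempty c := hne.to_subtype
          have hd : Directed (· ⊆ ·) (fun s : c => Th s.1) := by
            intro s t
            have hm : ∀ {a b : Set (LSet.Formula (Fin 2))}, a ⊆ b → Th a ⊆ Th b := by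
              intro a b hab
              exact Set.union_subset_union_right _ (Set.image_mono hab)
            rcases hch.total s.2 t.2 with h | h
            · exact ⟨t, hm h, subset_rfl⟩
            · exact ⟨s, subset_rfl, hm h⟩
          have h1 := (Theory.isSatisfiable_directed_union_iff hd).2 (fun s => (hc s.2).2)
          have h2 : (⋃ s : c, Th s.1) = Th (⋃₀ c) := by
            ext σ
            simp only [Set.mem_iUnion]
            constructor
            · rintro ⟨s, hσ | ⟨φ, hφ, rfl⟩⟩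
              · exact Or.inl hσ
              · exact Or.inr ⟨φ, ⟨s.1, s.2, hφ⟩, rfl⟩
            · rintro (hσ | ⟨φ, ⟨s, hs, hφ⟩, rfl⟩)
              · obtain ⟨s, hs⟩ := hne
                exact ⟨⟨s, hs⟩, Or.inl hσ⟩
              · exact ⟨⟨s, hs⟩, Or.inr ⟨φ, hφ, rfl⟩⟩
          rwa [h2] at h1
      · refine ⟨∅, ⟨fun φ hφ => absurd hφ (Set.notMem_empty φ), sat_empty⟩, fun s hs => ?_⟩
        exact absurd ⟨s, hs⟩ hne)
  refine ⟨S, hS.prop.1, hS.prop.2, fun φ hφ h => ?_⟩
  have h1 := hS.le_of_ge (y := insert φ S) ⟨?_, h⟩ (Set.subset_insert φ S)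
  · exact h1 (Set.mem_insert φ S)
  · rintro ψ (rfl | hψ)
    · exact hφ
    · exact hS.prop.1 ψ hψ

theorem card_LSet : LSet.card ≤ Cardinal.aleph0 := by
  have hc : Countable (Σ l, LSet.Functions l) :=
    ⟨⟨fun x => Empty.elim x.2, fun x => Empty.elim x.2⟩⟩
  have hc' : Countable (Σ l, LSet.Relations l) := ⟨⟨fun x => x.1, by
    rintro ⟨l, r⟩ ⟨l', r'⟩ h
    obtain rfl : l = l' := h
    cases r
    cases r'
    rfl⟩⟩
  have : Countable LSet.Symbols := inferInstanceAs (Countable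
    ((Σ l, LSet.Functions l) ⊕ (Σ l, LSet.Relations l)))
  exact Cardinal.mk_le_aleph0

theorem exists_countable_model {T : LSet.Theory} (h : T.IsSatisfiable) :
    ∃ (N : Type) (_ : LSet.Structure N), Countable N ∧ N ⊨ T := by
  obtain ⟨M⟩ := h
  by_cases hM : Countable M
  · exact ⟨M, inferInstance, hM, M.is_model⟩
  · rw [not_countable_iff] at hM
    obtain ⟨S, -, hS⟩ := exists_elementarySubstructure_card_eq LSet (∅ : Set M)
      (Cardinal.aleph0.{0}) le_rfl (by simp) (by simpa using card_LSet) (by simp)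
    refine ⟨S, inferInstance, ?_, ?_⟩
    · rw [← Cardinal.mk_le_aleph0_iff]
      simpa using hS.le
    · exact (S.theory_model_iff T).2 M.is_model

/-- **The model.** There is a countable model `N` of ZFC with a first and a second uncountable
cardinal `a`, `b` such that a `Σ₁` formula that holds for `a`, `b` in some model of ZFC that
contains `N` as a transitive part and in which `a`, `b` are the first and the second uncountable
cardinal holds in `N` for `a`, `b`. -/
theorem exists_model : ∃ (N : Type) (_ : LSet.Structure N), Countable N ∧ ZFC N ∧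
    ∃ a b : N, IsOmega1 a ∧ IsOmega2 b ∧
      ∀ (N' : Type) [LSet.Structure N'] (j : N → N'), ZFC N' → IsTransEmb j → IsOmega1 (j a) →
        IsOmega2 (j b) → ∀ φ : LSet.Formula (Fin 2), IsSigma1 φ → φ.Realize ![j a, j b] →
          φ.Realize ![a, b] := by
  obtain ⟨S, hS, hsat, hmax⟩ := exists_max
  obtain ⟨N, iN, hc, hN⟩ := exists_countable_model hsat
  obtain ⟨h1, ⟨a, b, ha, hb⟩, h3⟩ := Th_model.1 hN
  have h3' : ∀ φ ∈ S, φ.Realize ![a, b] := by
    intro φ hφ
    obtain ⟨a', b', ⟨ha', hb'⟩, h4⟩ := h3 φ hφ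
    rwa [ha'.unique ha, hb'.unique hb] at h4
  refine ⟨N, iN, hc, h1, a, b, ha, hb, ?_⟩
  intro N' _ j hN' hj hja hjb φ hφ hr
  refine h3' φ (hmax φ hφ ?_)
  have hv : ∀ ψ : LSet.Formula (Fin 2), (ψ.Realize fun i => j ((![a, b] : Fin 2 → N) i)) ↔
      ψ.Realize ![j a, j b] := by
    intro ψ
    refine iff_of_eq (congrArg ψ.Realize ?_)
    funext i
    fin_cases i <;> rfl
  have hN'T : N' ⊨ Th (insert φ S) := by
    refine Th_model.2 ⟨hN', ⟨j a, j b, hja, hjb⟩, ?_⟩
    rintro ψ (rfl | hψ)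
    · exact ⟨j a, j b, ⟨hja, hjb⟩, hr⟩
    · exact ⟨j a, j b, ⟨hja, hjb⟩, (hv ψ).1 (sigma1_up hj (hS ψ hψ) ![a, b] (h3' ψ hψ))⟩
  have : Nonempty N' := ⟨j a⟩
  exact Theory.Model.isSatisfiable N'

end Pool.Agent.T6.H70.SA
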