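import Pool.Agent.H635R2.Statement

/-!
# Sigma_1 absoluteness for forcings preserving aleph_1 and aleph_2: the definitions

The language `LSet` of set theory has one binary relation symbol. In a structure `N` for it,
`Mem x y` says that `x` is an element of `y` in the sense of `N`. (`LSet`, `Mem`, `Zermelo`
and `IsOrdPair` are from `Pool.Agent.Helper672.SIK.Plain`, the class `ZF` is from
`Pool.Agent.H635R2.Statement`.)
-/

set_option autoImplicit false

namespace Pool.Agent.T6.H70.SA

open FirstOrder FirstOrder.Language
open Pool.Agent.Helper672.Plain (LSet Mem IsOrdPair)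
open Pool.Agent.H635Amen (ZF)

universe u v

/-! ### The first infinite cardinals of a model -/

section cardinals

variable {N : Type u} [LSet.Structure N]

/-- The ordered pair `(x, y)` is an element of `s`. -/
def PMem (x y s : N) : Prop := ∃ q, IsOrdPair q x y ∧ Mem q s

/-- `a` is an ordinal: a transitive set that is linearly ordered by membership (in models of ZF
all sets are well-founded). -/
structure IsOrdinal (a : N) : Prop where
  trans : ∀ x y, Mem x a → Mem y x → Mem y a
  total : ∀ x y, Mem x a → Mem y a → Mem x y ∨ x = y ∨ Mem y x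

variable (N) in
/-- Models of ZFC: models of ZF in which every set `x` can be well-ordered, which is equivalent to
the axiom of choice; that is, there is a function `f` that maps an ordinal `k` onto a set that
contains all elements of `x`. -/
class ZFC : Prop extends ZF N where
  choice : ∀ x : N, ∃ k f : N, IsOrdinal k ∧ (∀ y z w, PMem y z f → PMem y w f → z = w) ∧
    ∀ z, Mem z x → ∃ y, Mem y k ∧ PMem y z f

/-- `w` is the ordinal `ω`: a nonempty ordinal without a largest element, such that all its
nonempty elements have a largest element. -/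
structure IsOmega (w : N) : Prop where
  ord : IsOrdinal w
  ne : ∃ x, Mem x w
  lim : ∀ x, Mem x w → ∃ y, Mem y w ∧ Mem x y
  least : ∀ x, Mem x w → (∃ y, Mem y x) → ∃ y, Mem y x ∧ ∀ z, Mem z x → ¬ Mem y z

/-- `f` gives an injective function from `a` to `b`: a one-to-one set of ordered pairs which pairs
every element of `a` with an element of `b`. -/
structure IsInjection (f a b : N) : Prop where
  total : ∀ x, Mem x a → ∃ y, Mem y b ∧ PMem x y f
  func : ∀ x y z, PMem x y f → PMem x z f → y = z
  inj : ∀ x y z, PMem x z f → PMem y z f → x = y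

/-- `k` is a cardinal: an ordinal without injections (in the model) to any of its elements. -/
structure IsCardinal (k : N) : Prop where
  ord : IsOrdinal k
  card : ∀ x, Mem x k → ¬ ∃ f, IsInjection f k x

/-- `k` is the least cardinal above `c`. -/
structure IsNextCardinal (k c : N) : Prop where
  card : IsCardinal k
  mem : Mem c k
  least : ∀ x, Mem x k → IsCardinal x → x = c ∨ Mem x c

/-- `a` is the first uncountable cardinal of the model. -/
def IsOmega1 (a : N) : Prop := ∃ w, IsOmega w ∧ IsNextCardinal a w

/-- `b` is the second uncountable cardinal of the model. -/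
def IsOmega2 (b : N) : Prop := ∃ a, IsOmega1 a ∧ IsNextCardinal b a

end cardinals

/-! ### The Levy hierarchy -/

/-- The formula `t ∈ s`. -/
def memF {α : Type} {n : ℕ} (t s : LSet.Term (α ⊕ Fin n)) : LSet.BoundedFormula α n :=
  Relations.boundedFormula₂ (Pool.Agent.Helper672.Plain.Sym.mem : LSet.Relations 2) t s

/-- The `Δ₀` formulas: the formulas that are built from atomic formulas with implication, falsity
and bounded universal quantifiers `∀ x ∈ t`. (Other connectives and bounded existential
quantifiers are abbreviations.) -/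
inductive IsDelta0 {α : Type} : ∀ {n : ℕ}, LSet.BoundedFormula α n → Prop
  | falsum {n : ℕ} : IsDelta0 (⊥ : LSet.BoundedFormula α n)
  | eq {n : ℕ} (s t : α ⊕ Fin n) : IsDelta0 (Term.bdEqual (Term.var s) (Term.var t))
  | mem {n : ℕ} (s t : α ⊕ Fin n) : IsDelta0 (memF (Term.var s) (Term.var t))
  | imp {n : ℕ} {φ ψ : LSet.BoundedFormula α n} : IsDelta0 φ → IsDelta0 ψ → IsDelta0 (φ.imp ψ)
  | ball {n : ℕ} (t : α ⊕ Fin n) {φ : LSet.BoundedFormula α (n + 1)} : IsDelta0 φ →
      IsDelta0 ((memF (Term.var (Sum.inr (Fin.last n)))
        (Term.var (Sum.map id Fin.castSucc t))).imp φ).all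

/-- `φ` is a `Σ₁` formula: it is `∃ z ψ` for a `Δ₀` formula `ψ`. -/
def IsSigma1 {α : Type} (φ : LSet.Formula α) : Prop :=
  ∃ ψ : LSet.BoundedFormula α 1, IsDelta0 ψ ∧ φ = ψ.ex

/-! ### Forcing extensions -/

section ext

variable {N : Type u} [LSet.Structure N] {N' : Type v} [LSet.Structure N']

/-- `j` embeds `N` into `N'` as a transitive part of `N'`. -/
structure IsTransEmb (j : N → N') : Prop where
  inj : Function.Injective j
  mem : ∀ x y, Mem (j x) (j y) ↔ Mem x y
  trans : ∀ x z, Mem z (j x) → ∃ y, j y = z

/-- `(P, le)` is a notion of forcing in `N`: a nonempty set `P` with a preorder `le`. -/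
structure IsPoset (P le : N) : Prop where
  ne : ∃ p, Mem p P
  refl : ∀ p, Mem p P → PMem p p le
  trans : ∀ p q r, Mem p P → Mem q P → Mem r P → PMem p q le → PMem q r le → PMem p r le

/-- `G` is a filter on the notion of forcing `(P, le)` of `N` that meets all dense sets of `N`. -/
structure IsGenericFilter (j : N → N') (P le : N) (G : N') : Prop where
  sub : ∀ x, Mem x G → ∃ p, Mem p P ∧ x = j p
  ne : ∃ p, Mem p G
  up : ∀ p q, Mem p P → Mem q P → Mem (j p) G → PMem p q le → Mem (j q) G
  dir : ∀ p q, Mem (j p) G → Mem (j q) G → ∃ r, Mem (j r) G ∧ PMem r p le ∧ PMem r q le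
  generic : ∀ D : N, (∀ d, Mem d D → Mem d P) →
    (∀ p, Mem p P → ∃ d, Mem d D ∧ PMem d p le) → ∃ d, Mem d D ∧ Mem (j d) G

/-- The set `R` of ordered pairs (in `N'`) is closed under the evaluation of names by `G`: if
`(σ, y)` is in `R`, then the elements of `y` are the `z` with `(ρ, z)` in `R` for some `(ρ, p)` in
`σ` with `p` in `G`, and every `ρ` with `(ρ, p)` in `σ` for some `p` in `G` has such a `z`. -/
def IsEval (G R : N') : Prop := ∀ σ y, PMem σ y R →
  (∀ z, Mem z y → ∃ ρ p, PMem ρ p σ ∧ Mem p G ∧ PMem ρ z R) ∧
  (∀ ρ p, PMem ρ p σ → Mem p G → ∃ z, Mem z y ∧ PMem ρ z R)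

/-- `x` is the value `{τ' ^ G : (τ', p) ∈ τ for some p ∈ G}` of the name `τ` by `G`. -/
def IsValue (G τ x : N') : Prop := ∃ R, IsEval G R ∧ PMem τ x R

/-- `N'` (with the embedding `j` and the filter `G`) is the generic extension `N[G]` of `N` by the
notion of forcing `(P, le)`: `G` is generic over `N`, and all elements of `N'` are values of names
in `N`. -/
structure IsGenericExtension (j : N → N') (P le : N) (G : N') : Prop where
  emb : IsTransEmb j
  gen : IsGenericFilter j P le G
  name : ∀ x : N', ∃ τ : N, IsValue G (j τ) x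

end ext

end Pool.Agent.T6.H70.SA
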