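import Pool.Agent.H635R2.Ext
import Pool.Agent.T6.H70.SA.Defs

/-!
# Properties of models of set theory that are given by one formula
-/

set_option autoImplicit false
set_option linter.all false

namespace Pool.Agent.T6.H70.SA

open FirstOrder FirstOrder.Language
open Pool.Agent.Helper672.Plain (LSet Mem IsOrdPair IsPair Zermelo)
open Pool.Agent.H635Amen (ZF)

/-- The membership symbol. -/
def memSym : LSet.Relations 2 := Pool.Agent.Helper672.Plain.Sym.mem

/-- The properties `p` (of the structures in `Type`) and `q` (of the structures in `Type 1`) are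
given by the same formula. -/
def UD (ι : Type) (p : ∀ (N : Type) [LSet.Structure N], (ι → N) → Prop)
    (q : ∀ (N : Type 1) [LSet.Structure N], (ι → N) → Prop) : Prop :=
  ∃ φ : LSet.Formula ι, (∀ (N : Type) [LSet.Structure N] (v : ι → N), φ.Realize v ↔ p N v) ∧
    ∀ (N : Type 1) [LSet.Structure N] (v : ι → N), φ.Realize v ↔ q N v

namespace UD

variable {ι : Type}

theorem mem (i j : ι) : UD ι (fun N _ v => Mem (v i) (v j)) (fun N _ v => Mem (v i) (v j)) :=
  ⟨Relations.formula₂ (L := LSet) memSym (Term.var i) (Term.var j), fun N _ v => by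
      rw [Formula.realize_rel₂]
      rfl, fun N _ v => by
      rw [Formula.realize_rel₂]
      rfl⟩

theorem eq (i j : ι) : UD ι (fun N _ v => v i = v j) (fun N _ v => v i = v j) :=
  ⟨Term.equal (Term.var i) (Term.var j), fun N _ v => by
    rw [Formula.realize_equal]
    rfl, fun N _ v => by
    rw [Formula.realize_equal]
    rfl⟩

variable {p p' : ∀ (N : Type) [LSet.Structure N], (ι → N) → Prop}
  {q q' : ∀ (N : Type 1) [LSet.Structure N], (ι → N) → Prop}

theorem not (h : UD ι p q) :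
    UD ι (fun N _ v => ¬ p N v) (fun N _ v => ¬ q N v) := by
  obtain ⟨φ, h1, h2⟩ := h
  exact ⟨φ.not, fun N _ v => by rw [Formula.realize_not, h1],
    fun N _ v => by rw [Formula.realize_not, h2]⟩

theorem and (h : UD ι p q) (h' : UD ι p' q') :
    UD ι (fun N _ v => p N v ∧ p' N v) (fun N _ v => q N v ∧ q' N v) := by
  obtain ⟨φ, h1, h2⟩ := h
  obtain ⟨ψ, h3, h4⟩ := h'
  exact ⟨φ ⊓ ψ, fun N _ v => by rw [Formula.realize_inf, h1, h3],
    fun N _ v => by rw [Formula.realize_inf, h2, h4]⟩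

theorem or (h : UD ι p q) (h' : UD ι p' q') :
    UD ι (fun N _ v => p N v ∨ p' N v) (fun N _ v => q N v ∨ q' N v) := by
  obtain ⟨φ, h1, h2⟩ := h
  obtain ⟨ψ, h3, h4⟩ := h'
  exact ⟨φ ⊔ ψ, fun N _ v => by rw [Formula.realize_sup, h1, h3],
    fun N _ v => by rw [Formula.realize_sup, h2, h4]⟩

theorem imp (h : UD ι p q) (h' : UD ι p' q') :
    UD ι (fun N _ v => p N v → p' N v) (fun N _ v => q N v → q' N v) := by
  obtain ⟨φ, h1, h2⟩ := h
  obtain ⟨ψ, h3, h4⟩ := h'
  exact ⟨φ.imp ψ, fun N _ v => by rw [Formula.realize_imp, h1, h3],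
    fun N _ v => by rw [Formula.realize_imp, h2, h4]⟩

theorem iff (h : UD ι p q) (h' : UD ι p' q') :
    UD ι (fun N _ v => (p N v ↔ p' N v)) (fun N _ v => (q N v ↔ q' N v)) := by
  obtain ⟨φ, h1, h2⟩ := h
  obtain ⟨ψ, h3, h4⟩ := h'
  exact ⟨φ.iff ψ, fun N _ v => by rw [Formula.realize_iff, h1, h3],
    fun N _ v => by rw [Formula.realize_iff, h2, h4]⟩

theorem all {p : ∀ (N : Type) [LSet.Structure N], (ι → N) → N → Prop}
    {q : ∀ (N : Type 1) [LSet.Structure N], (ι → N) → N → Prop}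
    (h : UD (ι ⊕ Unit) (fun N _ v => p N (fun i => v (Sum.inl i)) (v (Sum.inr ())))
      (fun N _ v => q N (fun i => v (Sum.inl i)) (v (Sum.inr ())))) :
    UD ι (fun N _ v => ∀ x, p N v x) (fun N _ v => ∀ x, q N v x) := by
  obtain ⟨φ, h, h'⟩ := h
  refine ⟨φ.iAlls Unit, fun N _ v => ?_, fun N _ v => ?_⟩
  · rw [Formula.realize_iAlls]
    constructor
    · intro h1 x
      exact (h N (Sum.elim v fun _ => x)).1 (h1 fun _ => x)
    · intro h1 i
      exact (h N (Sum.elim v i)).2 (h1 (i ()))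
  · rw [Formula.realize_iAlls]
    constructor
    · intro h1 x
      exact (h' N (Sum.elim v fun _ => x)).1 (h1 fun _ => x)
    · intro h1 i
      exact (h' N (Sum.elim v i)).2 (h1 (i ()))

theorem ex {p : ∀ (N : Type) [LSet.Structure N], (ι → N) → N → Prop}
    {q : ∀ (N : Type 1) [LSet.Structure N], (ι → N) → N → Prop}
    (h : UD (ι ⊕ Unit) (fun N _ v => p N (fun i => v (Sum.inl i)) (v (Sum.inr ())))
      (fun N _ v => q N (fun i => v (Sum.inl i)) (v (Sum.inr ())))) :
    UD ι (fun N _ v => ∃ x, p N v x) (fun N _ v => ∃ x, q N v x) := by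
  obtain ⟨φ, h, h'⟩ := h
  refine ⟨φ.iExs Unit, fun N _ v => ?_, fun N _ v => ?_⟩
  · rw [Formula.realize_iExs]
    constructor
    · rintro ⟨i, h1⟩
      exact ⟨i (), (h N (Sum.elim v i)).1 h1⟩
    · rintro ⟨x, h1⟩
      exact ⟨fun _ => x, (h N (Sum.elim v fun _ => x)).2 h1⟩
  · rw [Formula.realize_iExs]
    constructor
    · rintro ⟨i, h1⟩
      exact ⟨i (), (h' N (Sum.elim v i)).1 h1⟩
    · rintro ⟨x, h1⟩
      exact ⟨fun _ => x, (h' N (Sum.elim v fun _ => x)).2 h1⟩

theorem alls {k : ℕ} {p : ∀ (N : Type) [LSet.Structure N], (ι → N) → (Fin k → N) → Prop}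
    {q : ∀ (N : Type 1) [LSet.Structure N], (ι → N) → (Fin k → N) → Prop}
    (h : UD (ι ⊕ Fin k) (fun N _ v => p N (fun i => v (Sum.inl i)) (fun i => v (Sum.inr i)))
      (fun N _ v => q N (fun i => v (Sum.inl i)) (fun i => v (Sum.inr i)))) :
    UD ι (fun N _ v => ∀ x, p N v x) (fun N _ v => ∀ x, q N v x) := by
  obtain ⟨φ, h, h'⟩ := h
  refine ⟨φ.iAlls (Fin k), fun N _ v => ?_, fun N _ v => ?_⟩
  · rw [Formula.realize_iAlls]
    constructor
    · intro h1 x
      exact (h N (Sum.elim v x)).1 (h1 x)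
    · intro h1 i
      exact (h N (Sum.elim v i)).2 (h1 i)
  · rw [Formula.realize_iAlls]
    constructor
    · intro h1 x
      exact (h' N (Sum.elim v x)).1 (h1 x)
    · intro h1 i
      exact (h' N (Sum.elim v i)).2 (h1 i)

theorem fml {κ : Type} (φ : LSet.Formula κ) (g : κ → ι) :
    UD ι (fun N _ v => φ.Realize (fun i => v (g i))) (fun N _ v => φ.Realize (fun i => v (g i))) :=
  ⟨φ.relabel g, fun N _ v => by rw [Formula.realize_relabel]; rfl,
    fun N _ v => by rw [Formula.realize_relabel]; rfl⟩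

theorem congr (h : UD ι p q)
    (h1 : ∀ (N : Type) [LSet.Structure N] (v : ι → N), p N v ↔ p' N v)
    (h2 : ∀ (N : Type 1) [LSet.Structure N] (v : ι → N), q N v ↔ q' N v) : UD ι p' q' := by
  obtain ⟨φ, h3, h4⟩ := h
  exact ⟨φ, fun N _ v => (h3 N v).trans (h1 N v), fun N _ v => (h4 N v).trans (h2 N v)⟩

theorem pair (i j k : ι) : UD ι (fun N _ v => IsPair (v i) (v j) (v k))
    (fun N _ v => IsPair (v i) (v j) (v k)) :=
  UD.all (UD.iff (UD.mem _ _) (UD.or (UD.eq _ _) (UD.eq _ _)))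

theorem ordPair (i j k : ι) : UD ι (fun N _ v => IsOrdPair (v i) (v j) (v k))
    (fun N _ v => IsOrdPair (v i) (v j) (v k)) :=
  UD.ex (UD.ex (UD.and (UD.pair _ _ _) (UD.and (UD.pair _ _ _) (UD.pair _ _ _))))

theorem pmem (i j k : ι) : UD ι (fun N _ v => PMem (v i) (v j) (v k))
    (fun N _ v => PMem (v i) (v j) (v k)) :=
  UD.ex (UD.and (UD.ordPair _ _ _) (UD.mem _ _))

theorem isOrdinal (i : ι) : UD ι (fun N _ v => IsOrdinal (v i)) (fun N _ v => IsOrdinal (v i)) := by
  refine UD.congr (p := fun N _ v => (∀ x y, Mem x (v i) → Mem y x → Mem y (v i)) ∧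
    ∀ x y, Mem x (v i) → Mem y (v i) → Mem x y ∨ x = y ∨ Mem y x)
    (q := fun N _ v => (∀ x y, Mem x (v i) → Mem y x → Mem y (v i)) ∧
    ∀ x y, Mem x (v i) → Mem y (v i) → Mem x y ∨ x = y ∨ Mem y x) ?_
    (fun N _ v => ⟨fun h => ⟨h.1, h.2⟩, fun h => ⟨h.1, h.2⟩⟩)
    (fun N _ v => ⟨fun h => ⟨h.1, h.2⟩, fun h => ⟨h.1, h.2⟩⟩)
  (repeat' (first | with_reducible exact UD.mem _ _ | with_reducible exact UD.eq _ _ | with_reducible exact UD.pair _ _ _ | with_reducible exact UD.ordPair _ _ _ | with_reducible exact UD.pmem _ _ _ | assumption | with_reducible apply UD.and | with_reducible apply UD.or | with_reducible apply UD.not | with_reducible apply UD.imp | with_reducible apply UD.iff | with_reducible apply UD.all | with_reducible apply UD.ex))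

theorem isOmega (i : ι) : UD ι (fun N _ v => IsOmega (v i)) (fun N _ v => IsOmega (v i)) := by
  refine UD.congr (p := fun N _ v => IsOrdinal (v i) ∧ (∃ x, Mem x (v i)) ∧
    (∀ x, Mem x (v i) → ∃ y, Mem y (v i) ∧ Mem x y) ∧
    ∀ x, Mem x (v i) → (∃ y, Mem y x) → ∃ y, Mem y x ∧ ∀ z, Mem z x → ¬ Mem y z)
    (q := fun N _ v => IsOrdinal (v i) ∧ (∃ x, Mem x (v i)) ∧
    (∀ x, Mem x (v i) → ∃ y, Mem y (v i) ∧ Mem x y) ∧
    ∀ x, Mem x (v i) → (∃ y, Mem y x) → ∃ y, Mem y x ∧ ∀ z, Mem z x → ¬ Mem y z) ?_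
    (fun N _ v => ⟨fun h => ⟨h.1, h.2.1, h.2.2.1, h.2.2.2⟩, fun h => ⟨h.1, h.2, h.3, h.4⟩⟩)
    (fun N _ v => ⟨fun h => ⟨h.1, h.2.1, h.2.2.1, h.2.2.2⟩, fun h => ⟨h.1, h.2, h.3, h.4⟩⟩)
  refine UD.and (isOrdinal i) ?_
  (repeat' (first | with_reducible exact UD.mem _ _ | with_reducible exact UD.eq _ _ | with_reducible exact UD.pair _ _ _ | with_reducible exact UD.ordPair _ _ _ | with_reducible exact UD.pmem _ _ _ | assumption | with_reducible apply UD.and | with_reducible apply UD.or | with_reducible apply UD.not | with_reducible apply UD.imp | with_reducible apply UD.iff | with_reducible apply UD.all | with_reducible apply UD.ex))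

theorem isInjection (i j k : ι) : UD ι (fun N _ v => IsInjection (v i) (v j) (v k))
    (fun N _ v => IsInjection (v i) (v j) (v k)) := by
  refine UD.congr (p := fun N _ v => (∀ x, Mem x (v j) → ∃ y, Mem y (v k) ∧ PMem x y (v i)) ∧
    (∀ x y z, PMem x y (v i) → PMem x z (v i) → y = z) ∧
    ∀ x y z, PMem x z (v i) → PMem y z (v i) → x = y)
    (q := fun N _ v => (∀ x, Mem x (v j) → ∃ y, Mem y (v k) ∧ PMem x y (v i)) ∧
    (∀ x y z, PMem x y (v i) → PMem x z (v i) → y = z) ∧
    ∀ x y z, PMem x z (v i) → PMem y z (v i) → x = y) ?_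
    (fun N _ v => ⟨fun h => ⟨h.1, h.2.1, h.2.2⟩, fun h => ⟨h.1, h.2, h.3⟩⟩)
    (fun N _ v => ⟨fun h => ⟨h.1, h.2.1, h.2.2⟩, fun h => ⟨h.1, h.2, h.3⟩⟩)
  (repeat' (first | with_reducible exact UD.mem _ _ | with_reducible exact UD.eq _ _ | with_reducible exact UD.pair _ _ _ | with_reducible exact UD.ordPair _ _ _ | with_reducible exact UD.pmem _ _ _ | assumption | with_reducible apply UD.and | with_reducible apply UD.or | with_reducible apply UD.not | with_reducible apply UD.imp | with_reducible apply UD.iff | with_reducible apply UD.all | with_reducible apply UD.ex))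

theorem isCardinal (i : ι) : UD ι (fun N _ v => IsCardinal (v i))
    (fun N _ v => IsCardinal (v i)) := by
  refine UD.congr (p := fun N _ v => IsOrdinal (v i) ∧
    ∀ x, Mem x (v i) → ¬ ∃ f, IsInjection f (v i) x)
    (q := fun N _ v => IsOrdinal (v i) ∧
    ∀ x, Mem x (v i) → ¬ ∃ f, IsInjection f (v i) x) ?_
    (fun N _ v => ⟨fun h => ⟨h.1, h.2⟩, fun h => ⟨h.1, h.2⟩⟩)
    (fun N _ v => ⟨fun h => ⟨h.1, h.2⟩, fun h => ⟨h.1, h.2⟩⟩)
  refine UD.and (isOrdinal i) (UD.all (UD.imp (UD.mem _ _) (UD.not (UD.ex ?_))))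
  exact isInjection _ _ _

theorem isNextCardinal (i j : ι) : UD ι (fun N _ v => IsNextCardinal (v i) (v j))
    (fun N _ v => IsNextCardinal (v i) (v j)) := by
  refine UD.congr (p := fun N _ v => IsCardinal (v i) ∧ Mem (v j) (v i) ∧
    ∀ x, Mem x (v i) → IsCardinal x → x = v j ∨ Mem x (v j))
    (q := fun N _ v => IsCardinal (v i) ∧ Mem (v j) (v i) ∧
    ∀ x, Mem x (v i) → IsCardinal x → x = v j ∨ Mem x (v j)) ?_
    (fun N _ v => ⟨fun h => ⟨h.1, h.2.1, h.2.2⟩, fun h => ⟨h.1, h.2, h.3⟩⟩)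
    (fun N _ v => ⟨fun h => ⟨h.1, h.2.1, h.2.2⟩, fun h => ⟨h.1, h.2, h.3⟩⟩)
  exact UD.and (isCardinal i) (UD.and (UD.mem _ _) (UD.all (UD.imp (UD.mem _ _)
    (UD.imp (isCardinal _) (UD.or (UD.eq _ _) (UD.mem _ _))))))

theorem isOmega1 (i : ι) : UD ι (fun N _ v => IsOmega1 (v i)) (fun N _ v => IsOmega1 (v i)) :=
  UD.ex (UD.and (isOmega _) (isNextCardinal _ _))

theorem isOmega2 (i : ι) : UD ι (fun N _ v => IsOmega2 (v i)) (fun N _ v => IsOmega2 (v i)) :=
  UD.ex (UD.and (isOmega1 _) (isNextCardinal _ _))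

end UD

/-- A property of models that is given by a sentence. -/
def US (p : ∀ (N : Type) [LSet.Structure N], Prop) (q : ∀ (N : Type 1) [LSet.Structure N], Prop) :
    Prop := UD Empty (fun N _ _ => p N) (fun N _ _ => q N)

theorem US.sent {p : ∀ (N : Type) [LSet.Structure N], Prop}
    {q : ∀ (N : Type 1) [LSet.Structure N], Prop} (h : US p q) :
    ∃ σ : LSet.Sentence, (∀ (N : Type) [LSet.Structure N], N ⊨ σ ↔ p N) ∧
      ∀ (N : Type 1) [LSet.Structure N], N ⊨ σ ↔ q N := by
  obtain ⟨φ, h, h'⟩ := h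
  exact ⟨φ, fun N _ => h N _, fun N _ => h' N _⟩

/-! ### The axioms of ZFC -/

theorem us_ext : US (fun N _ => ∀ x y : N, (∀ z, Mem z x ↔ Mem z y) → x = y)
    (fun N _ => ∀ x y : N, (∀ z, Mem z x ↔ Mem z y) → x = y) := by
  unfold US
  (repeat' (first | with_reducible exact UD.mem _ _ | with_reducible exact UD.eq _ _ | with_reducible exact UD.pair _ _ _ | with_reducible exact UD.ordPair _ _ _ | with_reducible exact UD.pmem _ _ _ | assumption | with_reducible apply UD.and | with_reducible apply UD.or | with_reducible apply UD.not | with_reducible apply UD.imp | with_reducible apply UD.iff | with_reducible apply UD.all | with_reducible apply UD.ex))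

theorem us_pairing : US (fun N _ => ∀ x y : N, ∃ p, ∀ z, Mem z p ↔ z = x ∨ z = y)
    (fun N _ => ∀ x y : N, ∃ p, ∀ z, Mem z p ↔ z = x ∨ z = y) := by
  unfold US
  (repeat' (first | with_reducible exact UD.mem _ _ | with_reducible exact UD.eq _ _ | with_reducible exact UD.pair _ _ _ | with_reducible exact UD.ordPair _ _ _ | with_reducible exact UD.pmem _ _ _ | assumption | with_reducible apply UD.and | with_reducible apply UD.or | with_reducible apply UD.not | with_reducible apply UD.imp | with_reducible apply UD.iff | with_reducible apply UD.all | with_reducible apply UD.ex))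

theorem us_union : US (fun N _ => ∀ x : N, ∃ a, ∀ z, Mem z a ↔ ∃ y, Mem y x ∧ Mem z y)
    (fun N _ => ∀ x : N, ∃ a, ∀ z, Mem z a ↔ ∃ y, Mem y x ∧ Mem z y) := by
  unfold US
  (repeat' (first | with_reducible exact UD.mem _ _ | with_reducible exact UD.eq _ _ | with_reducible exact UD.pair _ _ _ | with_reducible exact UD.ordPair _ _ _ | with_reducible exact UD.pmem _ _ _ | assumption | with_reducible apply UD.and | with_reducible apply UD.or | with_reducible apply UD.not | with_reducible apply UD.imp | with_reducible apply UD.iff | with_reducible apply UD.all | with_reducible apply UD.ex))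

theorem us_power : US (fun N _ => ∀ x : N, ∃ p, ∀ z, Mem z p ↔ ∀ w, Mem w z → Mem w x)
    (fun N _ => ∀ x : N, ∃ p, ∀ z, Mem z p ↔ ∀ w, Mem w z → Mem w x) := by
  unfold US
  (repeat' (first | with_reducible exact UD.mem _ _ | with_reducible exact UD.eq _ _ | with_reducible exact UD.pair _ _ _ | with_reducible exact UD.ordPair _ _ _ | with_reducible exact UD.pmem _ _ _ | assumption | with_reducible apply UD.and | with_reducible apply UD.or | with_reducible apply UD.not | with_reducible apply UD.imp | with_reducible apply UD.iff | with_reducible apply UD.all | with_reducible apply UD.ex))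

theorem us_infinity : US (fun N _ => ∃ i : N, (∃ e, Mem e i ∧ ∀ z, ¬ Mem z e) ∧
    ∀ n, Mem n i → ∃ s, Mem s i ∧ ∀ z, Mem z s ↔ Mem z n ∨ z = n)
    (fun N _ => ∃ i : N, (∃ e, Mem e i ∧ ∀ z, ¬ Mem z e) ∧
    ∀ n, Mem n i → ∃ s, Mem s i ∧ ∀ z, Mem z s ↔ Mem z n ∨ z = n) := by
  unfold US
  (repeat' (first | with_reducible exact UD.mem _ _ | with_reducible exact UD.eq _ _ | with_reducible exact UD.pair _ _ _ | with_reducible exact UD.ordPair _ _ _ | with_reducible exact UD.pmem _ _ _ | assumption | with_reducible apply UD.and | with_reducible apply UD.or | with_reducible apply UD.not | with_reducible apply UD.imp | with_reducible apply UD.iff | with_reducible apply UD.all | with_reducible apply UD.ex))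

theorem us_foundation : US (fun N _ => ∀ x : N, (∃ y, Mem y x) →
    ∃ y, Mem y x ∧ ∀ z, Mem z x → ¬ Mem z y) (fun N _ => ∀ x : N, (∃ y, Mem y x) →
    ∃ y, Mem y x ∧ ∀ z, Mem z x → ¬ Mem z y) := by
  unfold US
  (repeat' (first | with_reducible exact UD.mem _ _ | with_reducible exact UD.eq _ _ | with_reducible exact UD.pair _ _ _ | with_reducible exact UD.ordPair _ _ _ | with_reducible exact UD.pmem _ _ _ | assumption | with_reducible apply UD.and | with_reducible apply UD.or | with_reducible apply UD.not | with_reducible apply UD.imp | with_reducible apply UD.iff | with_reducible apply UD.all | with_reducible apply UD.ex))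

/-- The well-ordering theorem. -/
def Wot (N : Type*) [LSet.Structure N] : Prop := ∀ x : N, ∃ k f : N, IsOrdinal k ∧
    (∀ y z w, PMem y z f → PMem y w f → z = w) ∧ ∀ z, Mem z x → ∃ y, Mem y k ∧ PMem y z f

theorem us_choice : US (fun N _ => Wot N) (fun N _ => Wot N) := by
  unfold US Wot
  refine UD.all (UD.ex (UD.ex (UD.and (UD.isOrdinal _) ?_)))
  (repeat' (first | with_reducible exact UD.mem _ _ | with_reducible exact UD.eq _ _ | with_reducible exact UD.pair _ _ _ | with_reducible exact UD.ordPair _ _ _ | with_reducible exact UD.pmem _ _ _ | assumption | with_reducible apply UD.and | with_reducible apply UD.or | with_reducible apply UD.not | with_reducible apply UD.imp | with_reducible apply UD.iff | with_reducible apply UD.all | with_reducible apply UD.ex))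

theorem us_cardinals : US (fun N _ => ∃ a b : N, IsOmega1 a ∧ IsOmega2 b)
    (fun N _ => ∃ a b : N, IsOmega1 a ∧ IsOmega2 b) :=
  UD.ex (UD.ex (UD.and (UD.isOmega1 _) (UD.isOmega2 _)))

/-- The sentence for `φ(ω₁, ω₂)`. -/
theorem us_fml (φ : LSet.Formula (Fin 2)) :
    US (fun N _ => ∃ a b : N, (IsOmega1 a ∧ IsOmega2 b) ∧ φ.Realize ![a, b])
    (fun N _ => ∃ a b : N, (IsOmega1 a ∧ IsOmega2 b) ∧ φ.Realize ![a, b]) := by
  refine UD.ex (UD.ex (UD.and (UD.and (UD.isOmega1 _) (UD.isOmega2 _)) ?_))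
  refine UD.congr (UD.fml φ ![Sum.inl (Sum.inr ()), Sum.inr ()]) (fun N _ v => ?_)
    (fun N _ v => ?_)
  · refine iff_of_eq (congrArg φ.Realize ?_)
    funext i
    fin_cases i <;> rfl
  · refine iff_of_eq (congrArg φ.Realize ?_)
    funext i
    fin_cases i <;> rfl

/-- The instance of Separation for a formula. -/
theorem us_separation (k : ℕ) (φ : LSet.Formula (Fin k ⊕ Fin 1)) : US (fun N _ =>
    ∀ a : Fin k → N, ∀ x : N, ∃ y, ∀ z, Mem z y ↔ Mem z x ∧
      φ.Realize (Sum.elim a fun _ => z)) (fun N _ =>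
    ∀ a : Fin k → N, ∀ x : N, ∃ y, ∀ z, Mem z y ↔ Mem z x ∧
      φ.Realize (Sum.elim a fun _ => z)) := by
  unfold US
  refine UD.alls (UD.all (UD.ex (UD.all (UD.iff (UD.mem _ _) (UD.and (UD.mem _ _) ?_)))))
  refine UD.congr (UD.fml φ (Sum.elim (fun i => Sum.inl (Sum.inl (Sum.inl (Sum.inr i))))
    (fun _ => Sum.inr ()))) (fun N _ v => ?_) (fun N _ v => ?_)
  · refine iff_of_eq (congrArg φ.Realize ?_)
    funext i
    rcases i with i | i <;> rfl
  · refine iff_of_eq (congrArg φ.Realize ?_)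
    funext i
    rcases i with i | i <;> rfl

/-- The instance of Replacement for a formula. -/
theorem us_replacement (k : ℕ) (φ : LSet.Formula (Fin k ⊕ Fin 2)) : US (fun N _ =>
    ∀ a : Fin k → N, ∀ x : N, (∀ y, Mem y x → ∃ z, φ.Realize (Sum.elim a ![y, z]) ∧
      ∀ w, φ.Realize (Sum.elim a ![y, w]) → w = z) →
      ∃ b, ∀ z, Mem z b ↔ ∃ y, Mem y x ∧ φ.Realize (Sum.elim a ![y, z])) (fun N _ =>
    ∀ a : Fin k → N, ∀ x : N, (∀ y, Mem y x → ∃ z, φ.Realize (Sum.elim a ![y, z]) ∧
      ∀ w, φ.Realize (Sum.elim a ![y, w]) → w = z) →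
      ∃ b, ∀ z, Mem z b ↔ ∃ y, Mem y x ∧ φ.Realize (Sum.elim a ![y, z])) := by
  unfold US
  have key : ∀ {κ : Type} (g : Fin k → κ) (i j : κ),
      UD κ (fun N _ v => φ.Realize (Sum.elim (fun m => v (g m)) ![v i, v j]))
        (fun N _ v => φ.Realize (Sum.elim (fun m => v (g m)) ![v i, v j])) := by
    intro κ g i j
    refine UD.congr (UD.fml φ (Sum.elim g ![i, j])) (fun N _ v => ?_) (fun N _ v => ?_)
    · refine iff_of_eq (congrArg φ.Realize ?_)
      funext m
      rcases m with m | m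
      · rfl
      · fin_cases m <;> rfl
    · refine iff_of_eq (congrArg φ.Realize ?_)
      funext m
      rcases m with m | m
      · rfl
      · fin_cases m <;> rfl
  refine UD.alls (UD.all (UD.imp (UD.all (UD.imp (UD.mem _ _) (UD.ex (UD.and (key _ _ _)
    (UD.all (UD.imp (key _ _ _) (UD.eq _ _)))))))
    (UD.ex (UD.all (UD.iff (UD.mem _ _) (UD.ex (UD.and (UD.mem _ _) (key _ _ _))))))))

/-- A class `C` of structures (in `Type`) that all are models of ZFC, seen through sentences: if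
`N` satisfies all sentences that hold in all models of ZFC, then `N` is a model of ZFC. More
generally, this is so if `N` satisfies all sentences that hold in some `V` in `Type 1` that is a
model of ZFC. -/
def zfcT : LSet.Theory := {σ | (∀ (N : Type) [LSet.Structure N], ZFC N → N ⊨ σ) ∧
  ∀ (N : Type 1) [LSet.Structure N], ZFC N → N ⊨ σ}

theorem zfcT_of {N : Type} [LSet.Structure N] (h : ZFC N) : N ⊨ zfcT :=
  ⟨fun σ hσ => hσ.1 N h⟩

theorem zfcT_of' {N : Type 1} [LSet.Structure N] (h : ZFC N) : N ⊨ zfcT :=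
  ⟨fun σ hσ => hσ.2 N h⟩

theorem of_us {p : ∀ (N : Type) [LSet.Structure N], Prop}
    {q : ∀ (N : Type 1) [LSet.Structure N], Prop} (h : US p q)
    (h' : ∀ (N : Type) [LSet.Structure N], ZFC N → p N)
    (h'' : ∀ (N : Type 1) [LSet.Structure N], ZFC N → q N) {N : Type} [LSet.Structure N]
    (hN : N ⊨ zfcT) : p N := by
  obtain ⟨σ, hσ, hσ'⟩ := h.sent
  exact (hσ N).1 (hN.realize_of_mem σ ⟨fun N' _ h1 => (hσ N').2 (h' N' h1),
    fun N' _ h1 => (hσ' N').2 (h'' N' h1)⟩)

universe u

theorem sep_aux {N : Type u} [LSet.Structure N] (h : ZFC N) {k : ℕ}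
    (φ : LSet.Formula (Fin k ⊕ Fin 1)) (a : Fin k → N) (x : N) : ∃ y, ∀ z, Mem z y ↔ Mem z x ∧
      φ.Realize (Sum.elim a fun _ => z) := by
  obtain ⟨y, hy⟩ := h.separation {z | φ.Realize (Sum.elim a fun _ => z)} (by
    refine Set.definable_iff_exists_formula_sum.2 ⟨φ.relabel (Sum.map (fun i =>
      (⟨a i, Set.mem_univ _⟩ : (Set.univ : Set N))) id), ?_⟩
    ext v
    simp only [Set.mem_ofPred_eq]
    rw [Formula.realize_relabel]
    refine iff_of_eq (congrArg φ.Realize ?_)
    funext i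
    rcases i with i | i
    · rfl
    · change v 0 = v i
      rw [Subsingleton.elim i 0]) x
  exact ⟨y, hy⟩

theorem repl_aux {N : Type u} [LSet.Structure N] (h : ZFC N) {k : ℕ}
    (φ : LSet.Formula (Fin k ⊕ Fin 2)) (a : Fin k → N) (x : N)
    (h3 : ∀ y, Mem y x → ∃ z, φ.Realize (Sum.elim a ![y, z]) ∧
      ∀ w, φ.Realize (Sum.elim a ![y, w]) → w = z) :
      ∃ b, ∀ z, Mem z b ↔ ∃ y, Mem y x ∧ φ.Realize (Sum.elim a ![y, z]) := by
  obtain ⟨b, hb⟩ := h.replacement {q | φ.Realize (Sum.elim a ![q.1, q.2])} (by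
    refine Set.definable_iff_exists_formula_sum.2 ⟨φ.relabel (Sum.map (fun i =>
      (⟨a i, Set.mem_univ _⟩ : (Set.univ : Set N))) id), ?_⟩
    ext v
    simp only [Set.mem_ofPred_eq]
    rw [Formula.realize_relabel]
    refine iff_of_eq (congrArg φ.Realize ?_)
    funext i
    rcases i with i | i
    · rfl
    · fin_cases i <;> rfl) x h3
  exact ⟨b, hb⟩

/-- The models of the theory are the models of ZFC. -/
theorem zfc_of_zfcT {N : Type} [LSet.Structure N] (hN : N ⊨ zfcT) : ZFC N where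
  ext := of_us us_ext (fun N _ h => h.ext) (fun N _ h => h.ext) hN
  pairing := of_us us_pairing (fun N _ h => h.pairing) (fun N _ h => h.pairing) hN
  union := of_us us_union (fun N _ h => h.union) (fun N _ h => h.union) hN
  power := of_us us_power (fun N _ h => h.power) (fun N _ h => h.power) hN
  infinity := of_us us_infinity (fun N _ h => h.infinity) (fun N _ h => h.infinity) hN
  foundation := of_us us_foundation (fun N _ h => h.foundation) (fun N _ h => h.foundation) hN
  choice := of_us us_choice (fun N _ h => h.choice) (fun N _ h => h.choice) hN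
  separation S hS x := by
    obtain ⟨k, φ, a, h1⟩ := Pool.Agent.Helper672.ZFA.H635.exists_formula hS
    obtain ⟨y, hy⟩ := of_us (us_separation k φ) (fun N _ h a x => sep_aux h φ a x)
      (fun N _ h a x => sep_aux h φ a x) hN a x
    refine ⟨y, fun z => (hy z).trans (and_congr_right fun _ => ?_)⟩
    exact (h1 fun _ => z).symm
  replacement F hF x hx := by
    obtain ⟨k, φ, a, h1⟩ := Pool.Agent.Helper672.ZFA.H635.exists_formula hF
    have h2 : ∀ y z, (y, z) ∈ F ↔ φ.Realize (Sum.elim a ![y, z]) := fun y z => h1 ![y, z]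
    obtain ⟨b, hb⟩ := of_us (us_replacement k φ) (fun N _ h a x h3 => repl_aux h φ a x h3)
      (fun N _ h a x h3 => repl_aux h φ a x h3) hN a x (fun y hy => by
        obtain ⟨z, h4, h5⟩ := hx y hy
        exact ⟨z, (h2 y z).1 h4, fun w hw => h5 w ((h2 y w).2 hw)⟩)
    refine ⟨b, fun z => (hb z).trans ?_⟩
    exact exists_congr fun y => and_congr_right fun _ => (h2 y z).symm

end Pool.Agent.T6.H70.SA
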