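import Pool.Agent.T6.H70.SA.Abs

/-!
# The type of all sets is a model of ZFC with a first and a second uncountable cardinal
-/

set_option autoImplicit false
set_option linter.all false

namespace Pool.Agent.T6.H70.SA

open FirstOrder FirstOrder.Language
open Pool.Agent.Helper672.Plain (LSet Mem IsOrdPair IsPair Zermelo)
open Pool.Agent.H635Amen (ZF)
open Ordinal Cardinal

universe u

/-- All sets as a structure. -/
@[reducible] def strV : LSet.Structure ZFSet.{u} where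
  funMap := fun f => Empty.elim f
  RelMap := fun {_} r v => match r, v with
    | Helper672.Plain.Sym.mem, v => v 0 ∈ v 1

section

attribute [local instance] strV

theorem mem_V {x y : ZFSet.{u}} : Mem x y ↔ x ∈ y := Iff.rfl

theorem zf_V : ZF ZFSet.{u} where
  ext x y h := ZFSet.ext h
  pairing x y := ⟨{x, y}, fun z => ZFSet.mem_pair⟩
  union x := ⟨ZFSet.sUnion x, fun z => ZFSet.mem_sUnion⟩
  power x := ⟨ZFSet.powerset x, fun z => ZFSet.mem_powerset⟩
  infinity := ⟨ZFSet.omega, ⟨∅, ZFSet.omega_zero, fun z => ZFSet.notMem_empty z⟩, fun n hn =>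
    ⟨insert n n, ZFSet.omega_succ hn, fun z => (ZFSet.mem_insert_iff).trans or_comm⟩⟩
  separation T _ x := ⟨ZFSet.sep (fun z => z ∈ T) x, fun z => ZFSet.mem_sep⟩
  foundation x hx := by
    obtain ⟨y, hy⟩ := hx
    obtain ⟨z, h1, h2⟩ := ZFSet.regularity x (fun h => ZFSet.notMem_empty y (h ▸ hy))
    refine ⟨z, h1, fun w hw hwz => ZFSet.notMem_empty w ?_⟩
    rw [← h2]
    exact ZFSet.mem_inter.2 ⟨hw, hwz⟩
  replacement F _ a h := by
    choose f hf hf' using h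
    refine ⟨ZFSet.range fun z : a => f z.1 z.2, fun y => ?_⟩
    refine ZFSet.mem_range.trans ?_
    constructor
    · rintro ⟨z, rfl⟩
      exact ⟨z.1, z.2, hf z.1 z.2⟩
    · rintro ⟨x, hx, h1⟩
      exact ⟨⟨x, hx⟩, (hf' x hx y h1).symm⟩

theorem pair_V {p x y : ZFSet.{u}} : IsPair p x y ↔ p = {x, y} :=
  ⟨fun h => ZFSet.ext fun z => (h z).trans ZFSet.mem_pair.symm, fun h z => by
    rw [h]
    exact ZFSet.mem_pair⟩

theorem ordPair_V {p x y : ZFSet.{u}} : IsOrdPair p x y ↔ p = ZFSet.pair x y := by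
  constructor
  · rintro ⟨s, d, h1, h2, h3⟩
    rw [pair_V] at h1 h2 h3
    rw [h3, h1, h2, ZFSet.pair]
    congr 1
    exact ZFSet.ext fun z => by simp
  · rintro rfl
    refine ⟨{x, x}, {x, y}, pair_V.2 rfl, pair_V.2 rfl, pair_V.2 ?_⟩
    rw [ZFSet.pair]
    congr 1
    exact ZFSet.ext fun z => by simp

theorem pmem_V {x y s : ZFSet.{u}} : PMem x y s ↔ ZFSet.pair x y ∈ s := by
  constructor
  · rintro ⟨q, h1, h2⟩
    rw [ordPair_V] at h1
    exact h1 ▸ h2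
  · intro h
    exact ⟨_, ordPair_V.2 rfl, h⟩

theorem isOrdinal_V (o : Ordinal.{u}) : IsOrdinal (N := ZFSet.{u}) o.toZFSet where
  trans x y hx hy := by
    obtain ⟨a, ha, rfl⟩ := mem_toZFSet_iff.1 hx
    obtain ⟨b, hb, rfl⟩ := mem_toZFSet_iff.1 hy
    exact toZFSet_mem_toZFSet_iff.2 (hb.trans ha)
  total x y hx hy := by
    obtain ⟨a, ha, rfl⟩ := mem_toZFSet_iff.1 hx
    obtain ⟨b, hb, rfl⟩ := mem_toZFSet_iff.1 hy
    rcases lt_trichotomy a b with h | h | h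
    · exact Or.inl (toZFSet_mem_toZFSet_iff.2 h)
    · exact Or.inr (Or.inl (h ▸ rfl))
    · exact Or.inr (Or.inr (toZFSet_mem_toZFSet_iff.2 h))

theorem wo_V (x : ZFSet.{u}) : ∃ k f : ZFSet.{u}, IsOrdinal k ∧
    (∀ y z w, PMem y z f → PMem y w f → z = w) ∧ ∀ z, Mem z x → ∃ y, Mem y k ∧ PMem y z f := by
  let α : Type u := Shrink.{u} x
  let e : x ≃ α := equivShrink _
  let r : α → α → Prop := WellOrderingRel
  let k : Ordinal.{u} := Ordinal.type r
  refine ⟨k.toZFSet, ZFSet.pairSep (fun u v => ∃ a : α, u = (Ordinal.typein r a).toZFSet ∧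
    v = (e.symm a).1) k.toZFSet x, isOrdinal_V _, ?_, ?_⟩
  · intro y z w h1 h2
    rw [pmem_V] at h1 h2
    obtain ⟨x1, _, y1, _, h3, a, h4, h5⟩ := ZFSet.mem_pairSep.1 h1
    obtain ⟨x2, _, y2, _, h6, b, h7, h8⟩ := ZFSet.mem_pairSep.1 h2
    obtain ⟨rfl, rfl⟩ := ZFSet.pair_inj.1 h3
    obtain ⟨h9, rfl⟩ := ZFSet.pair_inj.1 h6
    subst h9
    rw [h4] at h7
    have h10 : a = b := Ordinal.typein_injective r (toZFSet_injective h7)
    rw [h5, h8, h10]
  · intro z hz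
    have h1 : (Ordinal.typein r (e ⟨z, hz⟩)).toZFSet ∈ k.toZFSet :=
      toZFSet_mem_toZFSet_iff.2 (Ordinal.typein_lt_type r _)
    refine ⟨(Ordinal.typein r (e ⟨z, hz⟩)).toZFSet, h1, pmem_V.2 ?_⟩
    refine ZFSet.mem_pairSep.2 ⟨_, h1, _, hz, rfl, e ⟨z, hz⟩, rfl, ?_⟩
    rw [Equiv.symm_apply_apply]
    rfl

theorem zfc_V : ZFC ZFSet.{u} := { zf_V with choice := wo_V }

theorem isOmega_V : IsOmega (N := ZFSet.{u}) (toZFSet ω) where
  ord := isOrdinal_V _
  ne := ⟨toZFSet 0, toZFSet_mem_toZFSet_iff.2 omega0_pos⟩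
  lim x hx := by
    obtain ⟨a, ha, rfl⟩ := mem_toZFSet_iff.1 hx
    refine ⟨toZFSet (a + 1), toZFSet_mem_toZFSet_iff.2 ?_, toZFSet_mem_toZFSet_iff.2 ?_⟩
    · exact isSuccLimit_omega0.add_one_lt ha
    · exact lt_add_one a
  least x hx hne := by
    obtain ⟨a, ha, rfl⟩ := mem_toZFSet_iff.1 hx
    obtain ⟨n, rfl⟩ := lt_omega0.1 ha
    obtain ⟨y, hy⟩ := hne
    obtain ⟨b, hb, rfl⟩ := mem_toZFSet_iff.1 hy
    rcases n with _ | n
    · exact absurd hb (by simp)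
    · refine ⟨toZFSet n, toZFSet_mem_toZFSet_iff.2 (by exact_mod_cast Nat.lt_succ_self n), ?_⟩
      intro z hz hz'
      obtain ⟨c, hc, rfl⟩ := mem_toZFSet_iff.1 hz
      have h1 : (n : Ordinal) < c := toZFSet_mem_toZFSet_iff.1 hz'
      have h2 : c < (n : Ordinal) + 1 := by
        push_cast at hc
        exact hc
      exact absurd (Order.lt_add_one_iff.1 h2) (not_le.2 h1)

theorem inj_V {a b : Ordinal.{u}} : (∃ f : ZFSet.{u}, IsInjection f (toZFSet a) (toZFSet b)) ↔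
    a.card ≤ b.card := by
  constructor
  · rintro ⟨f, hf⟩
    have h1 : ∀ α : Set.Iio a, ∃ β : Set.Iio b, PMem (toZFSet α.1) (toZFSet β.1) f := by
      intro α
      obtain ⟨y, hy, h2⟩ := hf.total (toZFSet α.1) (toZFSet_mem_toZFSet_iff.2 α.2)
      obtain ⟨β, hβ, rfl⟩ := mem_toZFSet_iff.1 hy
      exact ⟨⟨β, hβ⟩, h2⟩
    choose g hg using h1
    have hinj : Function.Injective g := by
      intro α α' h
      have h2 := hg α
      rw [h] at h2
      exact Subtype.ext (toZFSet_injective (hf.inj _ _ _ h2 (hg α')))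
    have h3 := Cardinal.mk_le_of_injective hinj
    rw [Cardinal.mk_Iio_ordinal, Cardinal.mk_Iio_ordinal] at h3
    exact Cardinal.lift_le.1 h3
  · intro h
    have h1 : #(Set.Iio a) ≤ #(Set.Iio b) := by
      rw [Cardinal.mk_Iio_ordinal, Cardinal.mk_Iio_ordinal]
      exact Cardinal.lift_le.2 h
    obtain ⟨g⟩ := h1
    refine ⟨ZFSet.pairSep (fun x y => ∃ α : Set.Iio a, x = toZFSet α.1 ∧
      y = toZFSet (g α).1) (toZFSet a) (toZFSet b), ?_, ?_, ?_⟩
    · intro x hx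
      obtain ⟨α, hα, rfl⟩ := mem_toZFSet_iff.1 hx
      refine ⟨toZFSet (g ⟨α, hα⟩).1, toZFSet_mem_toZFSet_iff.2 (g ⟨α, hα⟩).2, pmem_V.2 ?_⟩
      exact ZFSet.mem_pairSep.2 ⟨_, hx, _, toZFSet_mem_toZFSet_iff.2 (g ⟨α, hα⟩).2, rfl,
        ⟨α, hα⟩, rfl, rfl⟩
    · intro x y z h1 h2
      rw [pmem_V] at h1 h2
      obtain ⟨x1, _, y1, _, h3, α, h4, h5⟩ := ZFSet.mem_pairSep.1 h1
      obtain ⟨x2, _, y2, _, h6, β, h7, h8⟩ := ZFSet.mem_pairSep.1 h2
      obtain ⟨rfl, rfl⟩ := ZFSet.pair_inj.1 h3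
      obtain ⟨h9, rfl⟩ := ZFSet.pair_inj.1 h6
      subst h9
      rw [h4] at h7
      have h10 : α = β := Subtype.ext (toZFSet_injective h7)
      rw [h5, h8, h10]
    · intro x y z h1 h2
      rw [pmem_V] at h1 h2
      obtain ⟨x1, _, y1, _, h3, α, h4, h5⟩ := ZFSet.mem_pairSep.1 h1
      obtain ⟨x2, _, y2, _, h6, β, h7, h8⟩ := ZFSet.mem_pairSep.1 h2
      obtain ⟨rfl, rfl⟩ := ZFSet.pair_inj.1 h3
      obtain ⟨rfl, h9⟩ := ZFSet.pair_inj.1 h6
      subst h9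
      rw [h5] at h8
      have h10 : α = β := g.injective (Subtype.ext (toZFSet_injective h8))
      rw [h4, h7, h10]

theorem isCardinal_V {o : Ordinal.{u}} : IsCardinal (N := ZFSet.{u}) o.toZFSet ↔
    ∀ a < o, a.card < o.card := by
  constructor
  · intro h a ha
    by_contra hcon
    exact h.card _ (toZFSet_mem_toZFSet_iff.2 ha) (inj_V.2 (not_lt.1 hcon))
  · intro h
    refine ⟨isOrdinal_V o, ?_⟩
    intro x hx hf
    obtain ⟨a, ha, rfl⟩ := mem_toZFSet_iff.1 hx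
    exact absurd (inj_V.1 hf) (not_le.2 (h a ha))

theorem isNextCardinal_V (κ : Cardinal.{u}) :
    IsNextCardinal (N := ZFSet.{u}) (Order.succ κ).ord.toZFSet κ.ord.toZFSet where
  card := by
    rw [isCardinal_V]
    intro a ha
    rw [card_ord]
    exact lt_ord.1 ha
  mem := toZFSet_mem_toZFSet_iff.2 (ord_lt_ord.2 (Order.lt_succ κ))
  least x hx hc := by
    obtain ⟨a, ha, rfl⟩ := mem_toZFSet_iff.1 hx
    rw [isCardinal_V] at hc
    have h1 : a.card ≤ κ := Order.lt_succ_iff.1 (lt_ord.1 ha)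
    rcases lt_trichotomy a κ.ord with h | h | h
    · exact Or.inr (toZFSet_mem_toZFSet_iff.2 h)
    · exact Or.inl (h ▸ rfl)
    · have h2 := hc _ h
      rw [card_ord] at h2
      exact absurd h1 (not_le.2 h2)

theorem cardinals_V : ∃ a b : ZFSet.{u}, IsOmega1 a ∧ IsOmega2 b := by
  have h1 : IsNextCardinal (N := ZFSet.{u}) (Order.succ ℵ₀).ord.toZFSet (toZFSet ω) := by
    have h := isNextCardinal_V.{u} ℵ₀
    rwa [ord_aleph0] at h
  have h2 : IsOmega1 (N := ZFSet.{u}) (Order.succ ℵ₀).ord.toZFSet := ⟨_, isOmega_V, h1⟩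
  exact ⟨_, _, h2, _, h2, isNextCardinal_V _⟩

end

end Pool.Agent.T6.H70.SA
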